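import Pool.Agent.K3h70.PP.Flow

/-!
# Modes and smallness of the planar flows
-/

set_option autoImplicit false

open MeasureTheory Set Filter Topology
open scoped ENNReal ContDiff

namespace Pool.Agent.K3h70.PP

open Pool.Agent.K3h70.EB Pool.Agent.K3h70.EP
open Pool.Agent.K3h70.EP.TD (ph_single_one)
open Pool.Agent.H708R2.EulerSign Pool.Agent.H708R2.EulerModes

/-! ### quasiperiodicity -/

lemma qp_cos_sin (Ω : ℝ) {f g : V → V} (hf : ContDiff ℝ ∞ f) (hg : ContDiff ℝ ∞ g) :
    QP (fun t x => Real.cos (Ω * t) • f x + Real.sin (Ω * t) • g x) :=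
  ⟨1, fun _ => Ω, fun _ => f, fun _ => g, fun _ => ⟨hf, hg⟩, fun t x => by simp⟩

lemma pen_qp (D : Pen) {f : V → ℝ} (hf : ContDiff ℝ ∞ f) : QP (fun t x => f x • D.w t x) := by
  have e : (fun (t : ℝ) (x : V) => f x • D.w t x) = fun t x => ∑ k ∈ D.F,
      (Real.cos (ph k D.a * t) • (f x • (Real.cos (ph k x) • D.A k + Real.sin (ph k x) • D.B k))
      + Real.sin (ph k D.a * t) • (f x • (Real.sin (ph k x) • D.A k
        - Real.cos (ph k x) • D.B k))) := by
    ext1 t; ext1 x
    unfold Pen.w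
    rw [Finset.smul_sum]
    refine Finset.sum_congr rfl fun k _ => ?_
    rw [Real.cos_sub, Real.sin_sub, mul_comm t]
    ext i
    simp only [Pi.add_apply, Pi.smul_apply, Pi.sub_apply, smul_eq_mul]
    ring
  rw [e]
  refine QP.sum _ fun k _ => ?_
  have c : ContDiff ℝ ∞ (fun x => Real.cos (ph k x)) := Real.contDiff_cos.comp (ph_contDiff k)
  have s : ContDiff ℝ ∞ (fun x => Real.sin (ph k x)) := Real.contDiff_sin.comp (ph_contDiff k)
  exact qp_cos_sin _ (hf.smul ((c.smul contDiff_const).add (s.smul contDiff_const)))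
    (hf.smul ((s.smul contDiff_const).sub (c.smul contDiff_const)))

variable {ι : Type} [Fintype ι] {η : Fin 3 → ℤ} {K : ℕ} {D : ι → Pen} {Ψ X : ι → ℝ → ℝ}

lemma vel_qp (hΨ : ∀ j, ContDiff ℝ ∞ (Ψ j)) (hX : ∀ j, ContDiff ℝ ∞ (X j)) :
    QP (vel η D Ψ X) := by
  unfold vel
  refine QP.sum _ fun j _ => ?_
  have h1 : ContDiff ℝ ∞ (fun x => Ψ j (ph η x)) := (hΨ j).comp (ph_contDiff η)
  have h2 : ContDiff ℝ ∞ (fun x => X j (ph η x)) := (hX j).comp (ph_contDiff η)
  have q1 : QP (fun (_ : ℝ) (x : V) => X j (ph η x) • (D j).a) := by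
    have h3 : QP (fun (t : ℝ) (x : V) => Real.cos (0 * t) • (X j (ph η x) • (D j).a)
        + Real.sin (0 * t) • (0 : V)) := qp_cos_sin 0 (h2.smul contDiff_const) contDiff_const
    have e : (fun (t : ℝ) (x : V) => Real.cos (0 * t) • (X j (ph η x) • (D j).a)
        + Real.sin (0 * t) • (0 : V)) = fun _ x => X j (ph η x) • (D j).a := by
      ext1 t; ext1 x
      rw [zero_mul, Real.cos_zero, one_smul, smul_zero, add_zero]
    rwa [e] at h3
  exact q1.add (pen_qp (D j) h1)

/-! ### the modes -/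

lemma fine_eq {N K : ℕ} (hN : 2 * K < N) {ψ : V → ℝ} (h : Fine N ψ) {k l : Fin 3 → ℤ}
    (hk : ∀ i, |k i| ≤ K) (hl : ∀ i, |l i| ≤ K) :
    (∫ x in Dom, ψ x * (Real.cos (ph k x) * Real.cos (ph l x))
      = ∫ x in Dom, Real.cos (ph k x) * Real.cos (ph l x)) ∧
    (∫ x in Dom, ψ x * (Real.sin (ph k x) * Real.cos (ph l x))
      = ∫ x in Dom, Real.sin (ph k x) * Real.cos (ph l x)) ∧
    (∫ x in Dom, ψ x * (Real.cos (ph k x) * Real.sin (ph l x))
      = ∫ x in Dom, Real.cos (ph k x) * Real.sin (ph l x)) ∧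
    (∫ x in Dom, ψ x * (Real.sin (ph k x) * Real.sin (ph l x))
      = ∫ x in Dom, Real.sin (ph k x) * Real.sin (ph l x)) := by
  obtain ⟨a1, a2, a3, a4⟩ := h.products hN hk hl
  obtain ⟨b1, b2, b3, b4⟩ := trig_products k l
  exact ⟨a1.trans b1.symm, a2.trans b2.symm, a3.trans b3.symm, a4.trans b4.symm⟩

lemma fine_sum {N : ℕ} {ψ : V → ℝ} (h : Fine N ψ) {F : Finset (Fin 3 → ℤ)}
    (α β : (Fin 3 → ℤ) → ℝ) {g : V → ℝ} (hg : Continuous g) (hgp : Periodic3 g)
    (h1 : ∀ k ∈ F, ∫ x in Dom, ψ x * (Real.cos (ph k x) * g x)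
      = ∫ x in Dom, Real.cos (ph k x) * g x)
    (h2 : ∀ k ∈ F, ∫ x in Dom, ψ x * (Real.sin (ph k x) * g x)
      = ∫ x in Dom, Real.sin (ph k x) * g x) :
    ∫ x in Dom, ψ x * ((∑ k ∈ F, (α k * Real.cos (ph k x) + β k * Real.sin (ph k x))) * g x)
      = ∫ x in Dom, (∑ k ∈ F, (α k * Real.cos (ph k x) + β k * Real.sin (ph k x))) * g x := by
  have cosc : ∀ k, Continuous (fun x => Real.cos (ph k x)) := fun k =>
    Real.continuous_cos.comp (ph_contDiff k).continuous
  have sinc : ∀ k, Continuous (fun x => Real.sin (ph k x)) := fun k =>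
    Real.continuous_sin.comp (ph_contDiff k).continuous
  have gen : ∀ ψ' : V → ℝ, Continuous ψ' → Periodic3 ψ' →
      ∫ x in Dom, ψ' x * ((∑ k ∈ F, (α k * Real.cos (ph k x) + β k * Real.sin (ph k x))) * g x)
      = ∑ k ∈ F, (α k * (∫ x in Dom, ψ' x * (Real.cos (ph k x) * g x))
        + β k * (∫ x in Dom, ψ' x * (Real.sin (ph k x) * g x))) := by
    intro ψ' hc hp
    have e : ∀ x, ψ' x * ((∑ k ∈ F, (α k * Real.cos (ph k x) + β k * Real.sin (ph k x))) * g x)
        = ∑ k ∈ F, (α k * (ψ' x * (Real.cos (ph k x) * g x))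
        + β k * (ψ' x * (Real.sin (ph k x) * g x))) := by
      intro x
      rw [Finset.sum_mul, Finset.mul_sum]
      refine Finset.sum_congr rfl fun k _ => ?_
      ring
    simp only [e]
    have i1 : ∀ k, IntegrableOn (fun x => ψ' x * (Real.cos (ph k x) * g x)) Dom := fun k =>
      (mul_per hp (mul_per (cos_periodic k) hgp)).integrableOn (hc.mul ((cosc k).mul hg))
    have i2 : ∀ k, IntegrableOn (fun x => ψ' x * (Real.sin (ph k x) * g x)) Dom := fun k =>
      (mul_per hp (mul_per (sin_periodic k) hgp)).integrableOn (hc.mul ((sinc k).mul hg))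
    rw [integral_finsetSum]
    · refine Finset.sum_congr rfl fun k _ => ?_
      rw [integral_add ((i1 k).const_mul _) ((i2 k).const_mul _), integral_const_mul,
        integral_const_mul]
    · intro k _
      exact ((i1 k).const_mul _).add ((i2 k).const_mul _)
  have g1 := gen ψ h.cont h.per
  have g2 := gen (fun _ => 1) continuous_const (fun _ _ => rfl)
  simp only [one_mul] at g2
  rw [g1, g2]
  exact Finset.sum_congr rfl fun k hk => by rw [h1 k hk, h2 k hk]

lemma w_comp (D : Pen) (t : ℝ) (x : V) (i : Fin 3) : D.w t x i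
    = ∑ k ∈ D.F, ((Real.cos (t * ph k D.a) * D.A k i - Real.sin (t * ph k D.a) * D.B k i)
        * Real.cos (ph k x)
      + (Real.sin (t * ph k D.a) * D.A k i + Real.cos (t * ph k D.a) * D.B k i)
        * Real.sin (ph k x)) := by
  unfold Pen.w
  rw [Finset.sum_apply]
  refine Finset.sum_congr rfl fun k _ => ?_
  rw [Real.cos_sub, Real.sin_sub]
  simp only [Pi.add_apply, Pi.smul_apply, smul_eq_mul]
  ring

/-- fine weights do not change the low modes of a pencil -/
lemma pen_modes {D : Pen} (hD : D.Ok η K) {N : ℕ} (hN : 2 * K < N) {ψ : V → ℝ} (h : Fine N ψ)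
    {l : Fin 3 → ℤ} (hl : ∀ i, |l i| ≤ K) (t : ℝ) (i : Fin 3) :
    (∫ x in Dom, ψ x * (D.w t x i * Real.cos (ph l x)) = ∫ x in Dom, D.w t x i * Real.cos (ph l x))
    ∧ (∫ x in Dom, ψ x * (D.w t x i * Real.sin (ph l x))
      = ∫ x in Dom, D.w t x i * Real.sin (ph l x)) := by
  have cosc : ∀ k, Continuous (fun x => Real.cos (ph k x)) := fun k =>
    Real.continuous_cos.comp (ph_contDiff k).continuous
  have sinc : ∀ k, Continuous (fun x => Real.sin (ph k x)) := fun k =>
    Real.continuous_sin.comp (ph_contDiff k).continuous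
  simp only [w_comp]
  constructor
  · exact fine_sum h _ _ (cosc l) (cos_periodic l)
      (fun k hk => (fine_eq hN h (hD.band k hk) hl).1)
      (fun k hk => (fine_eq hN h (hD.band k hk) hl).2.1)
  · exact fine_sum h _ _ (sinc l) (sin_periodic l)
      (fun k hk => (fine_eq hN h (hD.band k hk) hl).2.2.1)
      (fun k hk => (fine_eq hN h (hD.band k hk) hl).2.2.2)

/-- the low modes of the flow -/
lemma vel_modes' (hD : ∀ j, (D j).Ok η K) {N : ℕ} (hN : 2 * K < N) {m : ι → ℝ}
    (hm0 : ∀ j, m j ≠ 0) (hΨ : ∀ j, Fine N (fun x => Ψ j (ph η x)))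
    (hX : ∀ j, Fine N (fun x => (m j)⁻¹ * X j (ph η x)))
    (hm : ∑ j, m j • (D j).a = 0) (t : ℝ) {l : Fin 3 → ℤ} (hl : ∀ i, |l i| ≤ K) (i : Fin 3) :
    (∫ x in Dom, vel η D Ψ X t x i * Real.cos (ph l x)
      = ∫ x in Dom, (∑ j, (D j).w t x) i * Real.cos (ph l x)) ∧
    (∫ x in Dom, vel η D Ψ X t x i * Real.sin (ph l x)
      = ∫ x in Dom, (∑ j, (D j).w t x) i * Real.sin (ph l x)) := by
  have hN0 : 0 < N := by omega
  have hlN : ∀ i, |l i| < N := by
    intro i
    have h1 := hl i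
    have h2 : (2 : ℤ) * K < N := by exact_mod_cast hN
    omega
  have cosc : ∀ k, Continuous (fun x => Real.cos (ph k x)) := fun k =>
    Real.continuous_cos.comp (ph_contDiff k).continuous
  have sinc : ∀ k, Continuous (fun x => Real.sin (ph k x)) := fun k =>
    Real.continuous_sin.comp (ph_contDiff k).continuous
  have gen : ∀ g : V → ℝ, Continuous g → Periodic3 g → ∀ c : ℝ,
      (∀ j, ∫ x in Dom, ((m j)⁻¹ * X j (ph η x)) * g x = c) →
      (∀ j, ∫ x in Dom, Ψ j (ph η x) * ((D j).w t x i * g x) = ∫ x in Dom, (D j).w t x i * g x) →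
      ∫ x in Dom, vel η D Ψ X t x i * g x = ∫ x in Dom, (∑ j, (D j).w t x) i * g x := by
    intro g hg hgp c h1 h2
    have e : ∀ x, vel η D Ψ X t x i * g x = ∑ j, ((m j * (D j).a i) *
        (((m j)⁻¹ * X j (ph η x)) * g x) + Ψ j (ph η x) * ((D j).w t x i * g x)) := by
      intro x
      unfold vel
      rw [Finset.sum_apply, Finset.sum_mul]
      refine Finset.sum_congr rfl fun j _ => ?_
      simp only [Pi.add_apply, Pi.smul_apply, smul_eq_mul]
      have := hm0 j
      field_simp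
    have e' : ∀ x, (∑ j, (D j).w t x) i * g x = ∑ j, ((D j).w t x i * g x) := by
      intro x
      rw [Finset.sum_apply, Finset.sum_mul]
    simp only [e, e']
    have wc : ∀ j, Continuous (fun x => (D j).w t x i) := fun j =>
      (continuous_apply i).comp ((D j).w_smooth t).continuous
    have wp : ∀ j, Periodic3 (fun x => (D j).w t x i) := fun j => comp_periodic ((D j).w_per t) i
    have i1 : ∀ j, IntegrableOn (fun x => ((m j)⁻¹ * X j (ph η x)) * g x) Dom := fun j =>
      (mul_per (hX j).per hgp).integrableOn ((hX j).cont.mul hg)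
    have i2 : ∀ j, IntegrableOn (fun x => Ψ j (ph η x) * ((D j).w t x i * g x)) Dom := fun j =>
      (mul_per (hΨ j).per (mul_per (wp j) hgp)).integrableOn ((hΨ j).cont.mul ((wc j).mul hg))
    have i3 : ∀ j, IntegrableOn (fun x => (D j).w t x i * g x) Dom := fun j =>
      (mul_per (wp j) hgp).integrableOn ((wc j).mul hg)
    have s1 : ∫ x in Dom, ∑ j, ((m j * (D j).a i) *
        (((m j)⁻¹ * X j (ph η x)) * g x) + Ψ j (ph η x) * ((D j).w t x i * g x))
        = ∑ j, ∫ x in Dom, ((m j * (D j).a i) *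
        (((m j)⁻¹ * X j (ph η x)) * g x) + Ψ j (ph η x) * ((D j).w t x i * g x)) :=
      integral_finsetSum _ (fun j _ => ((i1 j).const_mul _).add (i2 j))
    have s2 : ∫ x in Dom, ∑ j, ((D j).w t x i * g x) = ∑ j, ∫ x in Dom, ((D j).w t x i * g x) :=
      integral_finsetSum _ (fun j _ => i3 j)
    rw [s1, s2]
    have e2 : ∀ j ∈ (Finset.univ : Finset ι), ∫ x in Dom, ((m j * (D j).a i) *
        (((m j)⁻¹ * X j (ph η x)) * g x) + Ψ j (ph η x) * ((D j).w t x i * g x))
        = (m j * (D j).a i) * c + ∫ x in Dom, (D j).w t x i * g x := by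
      intro j _
      rw [integral_add ((i1 j).const_mul _) (i2 j), integral_const_mul, h1 j, h2 j]
    rw [Finset.sum_congr rfl e2, Finset.sum_add_distrib, ← Finset.sum_mul]
    have e3 : ∑ j, m j * (D j).a i = 0 := by
      have := congrFun hm i
      simpa only [Finset.sum_apply, Pi.smul_apply, smul_eq_mul, Pi.zero_apply] using this
    rw [e3, zero_mul, zero_add]
  constructor
  · exact gen _ (cosc l) (cos_periodic l) _ (fun j => (hX j).cos_moment hN0 hlN)
      (fun j => (pen_modes (hD j) hN (hΨ j) hl t i).1)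
  · exact gen _ (sinc l) (sin_periodic l) _ (fun j => (hX j).sin_moment hN0 hlN)
      (fun j => (pen_modes (hD j) hN (hΨ j) hl t i).2)

/-! ### smallness -/

lemma HH.shift {B Λ : ℝ} {h : V → ℝ} (hh : HH B Λ h) (c : V) : HH B Λ (fun x => h (x - c)) := by
  refine ⟨hh.cont.comp (continuous_id.sub continuous_const), fun x => hh.bdd _, fun x y => ?_,
    fun i x => ?_⟩
  · have := hh.lip (x - c) (y - c)
    rwa [sub_sub_sub_cancel_right] at this
  · have := hh.per i (x - c)
    have e : x + Pi.single i (2 * Real.pi) - c = x - c + Pi.single i (2 * Real.pi) := by abel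
    show h _ = h _
    rw [e]
    exact this

lemma pen_hh (D : Pen) : ∃ C, 0 ≤ C ∧ ∀ t i, HH C C (fun x => D.w t x i) := by
  choose C hC0 hC using fun i => HH.of_smooth (f := fun x => D.w 0 x i)
    ((contDiff_pi.1 (D.w_smooth 0) i).of_le (by exact_mod_cast le_top))
    (comp_periodic (D.w_per 0) i)
  have hle : ∀ i, C i ≤ ∑ i, C i := fun i =>
    Finset.single_le_sum (f := C) (fun i _ => hC0 i) (Finset.mem_univ i)
  refine ⟨∑ i, C i, Finset.sum_nonneg fun i _ => hC0 i, fun t i => ?_⟩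
  have := ((hC i).mono (hle i) (hle i)).shift (t • D.a)
  simp only [← D.w_shift] at this
  exact this

lemma Wts.perX {M r : ℝ} {n₀ : ℕ} {B Λ x₀ ε' : ℝ} {m : ι → ℝ} (hx₀ : 0 < x₀)
    (hW : Wts M r η n₀ B Λ x₀ ε' Ψ X m) (j : ι) : Periodic3 (fun x => X j (ph η x)) := by
  intro i x
  have h1 : m j ≠ 0 := (hx₀.trans_le (hW.lower j)).ne'
  have h2 : (m j)⁻¹ * X j (ph η (x + Pi.single i (2 * Real.pi))) = (m j)⁻¹ * X j (ph η x) :=
    (hW.fineX j).per i x
  exact mul_left_cancel₀ (inv_ne_zero h1) h2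

lemma vel_small {M r : ℝ} (hr : 1 ≤ r) {n₀ : ℕ} {B Λ x₀ ε' : ℝ} (hx₀ : 0 < x₀) {m : ι → ℝ}
    (hW : Wts M r η n₀ B Λ x₀ ε' Ψ X m) (hh : ∀ j t i, HH B Λ (fun x => (D j).w t x i))
    (hm : ∑ j, m j • (D j).a = 0) (t : ℝ) (i : Fin 3) :
    SmallM M r (∑ j, (|(D j).a i| * ε' + ε'))
      (fun x => vel η D Ψ X t x i - (∑ j, (D j).w t x) i) := by
  have e : (fun x => vel η D Ψ X t x i - (∑ j, (D j).w t x) i)
      = fun x => ∑ j, ((D j).a i * (X j (ph η x) - m j)
        + (D j).w t x i * (Ψ j (ph η x) - 1)) := by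
    funext x
    have e3 : ∑ j, m j * (D j).a i = 0 := by
      have := congrFun hm i
      simpa only [Finset.sum_apply, Pi.smul_apply, smul_eq_mul, Pi.zero_apply] using this
    unfold vel
    have e4 : (∑ j, ((D j).a i * (X j (ph η x) - m j) + (D j).w t x i * (Ψ j (ph η x) - 1)))
        = (∑ j, (X j (ph η x) • (D j).a + Ψ j (ph η x) • (D j).w t x) i)
          - (∑ j, m j * (D j).a i) - ∑ j, (D j).w t x i := by
      rw [← Finset.sum_sub_distrib, ← Finset.sum_sub_distrib]
      refine Finset.sum_congr rfl fun j _ => ?_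
      simp only [Pi.add_apply, Pi.smul_apply, smul_eq_mul]
      ring
    rw [e4, e3, sub_zero, Finset.sum_apply, Finset.sum_apply]
  rw [e]
  have bsm : ∀ {f : V → ℝ}, ContDiff ℝ ∞ f → Periodic3 f → Bdc f := by
    intro f hf hp
    obtain ⟨C, -, hC⟩ := HH.of_smooth (hf.of_le (by exact_mod_cast le_top)) hp
    exact hC.bdc
  have hXs : ∀ j, ContDiff ℝ ∞ (fun x => X j (ph η x)) := fun j =>
    (hW.smoothX j).comp (ph_contDiff η)
  have hΨs : ∀ j, ContDiff ℝ ∞ (fun x => Ψ j (ph η x)) := fun j =>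
    (hW.smoothE j).comp (ph_contDiff η)
  have hXp : ∀ j, Periodic3 (fun x => X j (ph η x)) := fun j => hW.perX hx₀ j
  have b1 : ∀ j, Bdc (fun x => (D j).a i * (X j (ph η x) - m j)) := by
    intro j
    refine bsm (contDiff_const.mul ((hXs j).sub contDiff_const)) fun k x => ?_
    have : X j (ph η (x + Pi.single k (2 * Real.pi))) = X j (ph η x) := hXp j k x
    rw [this]
  have b2 : ∀ j, Bdc (fun x => (D j).w t x i * (Ψ j (ph η x) - 1)) := by
    intro j
    refine bsm ((contDiff_pi.1 ((D j).w_smooth t) i).mul ((hΨs j).sub contDiff_const))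
      fun k x => ?_
    have h1 : Ψ j (ph η (x + Pi.single k (2 * Real.pi))) = Ψ j (ph η x) :=
      (hW.fineE j).per k x
    have h2 := (D j).w_per t k x
    rw [h1, h2]
  refine SmallM.sum hr Finset.univ (fun j _ => ?_) (fun j _ => ?_)
  · obtain ⟨c1, B1, hB1⟩ := b1 j
    obtain ⟨c2, B2, hB2⟩ := b2 j
    exact ⟨c1.add c2, B1 + B2, fun x => (abs_add_le _ _).trans (add_le_add (hB1 x) (hB2 x))⟩
  · exact SmallM.add hr (b1 j) (b2 j) ((hW.smallX j).const_mul _) (hW.small j _ (hh j t i))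

end Pool.Agent.K3h70.PP
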