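import Pool.Agent.K3h70.EB.Defs
import Pool.Agent.K3h70.EP.Defs

/-!
# Definitions for `PlanarPaths`
-/

set_option autoImplicit false

open MeasureTheory Set
open scoped ContDiff

namespace Pool.Agent.K3h70.PP

open Pool.Agent.H708R2.EulerSign Pool.Agent.H708R2.EulerModes
open Pool.Agent.K3h70.EB

/-- `u` is a path of divergence-free fields of class `H^m` on `𝕋³` (no equation is assumed), bounded
in `H^m` on bounded time intervals, all of whose Fourier coefficients are continuous functions of
time, which is planar: `η · u(t,x) = 0` for all `t`, `x`, and such that the Fourier coefficients at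
the frequencies parallel to `η` (that is, the averages of `u` over the planes orthogonal to `η`) do
not depend on time. -/
structure IsPlanarPath (m : ℕ) (η : Fin 3 → ℤ) (u : ℝ → V → V) : Prop where
  field : ∀ t, IsHm m (u t)
  bounded : ∀ T : ℝ, ∃ B : ℝ, ∀ t ∈ Icc (-T) T, ∀ F : Finset (Fin 3 → ℤ),
    ∑ k ∈ F, (1 + ∑ j, (k j : ℝ) ^ 2) ^ m * ∑ i, ‖coeff (fun x => u t x i) k‖ ^ 2 ≤ B
  continuous : ∀ (k : Fin 3 → ℤ) i, Continuous (fun t => coeff (fun x => u t x i) k)
  planar : ∀ t x, ∑ i, (η i : ℝ) * u t x i = 0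
  averages : ∀ k : Fin 3 → ℤ, (∃ c : ℝ, ∀ i, (k i : ℝ) = c * η i) → ∀ t i,
    coeff (fun x => u t x i) k = coeff (fun x => u 0 x i) k

end Pool.Agent.K3h70.PP
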