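import Pool.Agent.K3h70.PP.Tail
import Pool.Agent.K3h70.PP.Defs
import Pool.Agent.K3h70.EB.Main

/-!
# Planar paths are limits of planar flows
-/

set_option autoImplicit false

open MeasureTheory Set Filter Topology
open scoped ENNReal ContDiff SchwartzMap

namespace Pool.Agent.K3h70.PP

open Pool.Agent.K3h70.EB Pool.Agent.K3h70.EP
open Pool.Agent.K3h70.EP.TD (ph_single_one ph_symm)
open Pool.Agent.H708R2.EulerSign Pool.Agent.H708R2.EulerModes
open Pool.Agent.Y302.Tri (cf vi vi_pos vi_eq cf_eq HB)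

/-- a vector orthogonal to `k` and `η` -/
lemma span_cr {k η : Fin 3 → ℤ} (hc : cr k η ≠ 0) {a : V} (h1 : ph k a = 0) (h2 : ph η a = 0) :
    a = ((ph (cr k η) (rv (cr k η)))⁻¹ * ph (cr k η) a) • rv (cr k η) := by
  have hn : ph (cr k η) (rv (cr k η)) ≠ 0 := by linarith [one_le_norm hc]
  have key : ∀ i, ph (cr k η) (rv (cr k η)) * a i = ph (cr k η) a * rv (cr k η) i := by
    unfold ph at h1 h2
    rw [Fin.sum_univ_three] at h1 h2
    intro i
    unfold ph rv cr
    fin_cases i <;>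
    simp only [Fin.sum_univ_three, Matrix.cons_val_zero, Matrix.cons_val_one, Matrix.cons_val,
      Fin.zero_eta, Fin.mk_one, Fin.reduceFinMk] <;> push_cast
    · linear_combination ((η 1 : ℝ) * (k 0 * η 1 - k 1 * η 0) - η 2 * (k 2 * η 0 - k 0 * η 2)) * h1
        - ((k 1 : ℝ) * (k 0 * η 1 - k 1 * η 0) - k 2 * (k 2 * η 0 - k 0 * η 2)) * h2
    · linear_combination ((η 2 : ℝ) * (k 1 * η 2 - k 2 * η 1) - η 0 * (k 0 * η 1 - k 1 * η 0)) * h1
        - ((k 2 : ℝ) * (k 1 * η 2 - k 2 * η 1) - k 0 * (k 0 * η 1 - k 1 * η 0)) * h2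
    · linear_combination ((η 0 : ℝ) * (k 2 * η 0 - k 0 * η 2) - η 1 * (k 1 * η 2 - k 2 * η 1)) * h1
        - ((k 0 : ℝ) * (k 2 * η 0 - k 0 * η 2) - k 1 * (k 1 * η 2 - k 2 * η 1)) * h2
  ext i
  rw [Pi.smul_apply, smul_eq_mul]
  have := key i
  field_simp
  linarith

/-- the size of a trigonometric field -/
lemma tf_hh (K : ℕ) {A B : (Fin 3 → ℤ) → V} {δ : ℝ} (hδ : 0 ≤ δ)
    (hA : ∀ k ∈ Bx K, ‖A k‖ ≤ δ) (hB : ∀ k ∈ Bx K, ‖B k‖ ≤ δ) (i : Fin 3) :
    HH (2 * (Bx K).card * δ) (2 * (3 * K) * (Bx K).card * δ) (fun x => tf K A B x i) := by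
  have hAi : ∀ k ∈ Bx K, |A k i| ≤ δ := fun k hk => (norm_le_pi_norm (A k) i).trans (hA k hk)
  have hBi : ∀ k ∈ Bx K, |B k i| ≤ δ := fun k hk => (norm_le_pi_norm (B k) i).trans (hB k hk)
  have e : ∀ x, tf K A B x i
      = ∑ k ∈ Bx K, (Real.cos (ph k x) * A k i + Real.sin (ph k x) * B k i) := by
    intro x
    unfold tf
    rw [Finset.sum_apply]
    rfl
  refine ⟨(continuous_apply i).comp (tf_cont K A B), fun x => ?_, fun x y => ?_,
    comp_periodic (tf_per K A B) i⟩
  · rw [e]
    refine (Finset.abs_sum_le_sum_abs _ _).trans ?_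
    calc ∑ k ∈ Bx K, |Real.cos (ph k x) * A k i + Real.sin (ph k x) * B k i|
        ≤ ∑ _k ∈ Bx K, 2 * δ := by
          refine Finset.sum_le_sum fun k hk => (abs_add_le _ _).trans ?_
          rw [abs_mul, abs_mul]
          have h1 := mul_le_mul (Real.abs_cos_le_one (ph k x)) (hAi k hk) (abs_nonneg _)
            zero_le_one
          have h2 := mul_le_mul (Real.abs_sin_le_one (ph k x)) (hBi k hk) (abs_nonneg _)
            zero_le_one
          linarith
      _ = _ := by rw [Finset.sum_const, nsmul_eq_mul]; ring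
  · rw [e, e, ← Finset.sum_sub_distrib]
    refine (Finset.abs_sum_le_sum_abs _ _).trans ?_
    calc ∑ k ∈ Bx K, |Real.cos (ph k x) * A k i + Real.sin (ph k x) * B k i
          - (Real.cos (ph k y) * A k i + Real.sin (ph k y) * B k i)|
        ≤ ∑ _k ∈ Bx K, 2 * (3 * K) * δ * ‖x - y‖ := by
          refine Finset.sum_le_sum fun k hk => ?_
          have e1 : Real.cos (ph k x) * A k i + Real.sin (ph k x) * B k i
            - (Real.cos (ph k y) * A k i + Real.sin (ph k y) * B k i)
            = (Real.cos (ph k x) - Real.cos (ph k y)) * A k i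
              + (Real.sin (ph k x) - Real.sin (ph k y)) * B k i := by ring
          rw [e1]
          refine (abs_add_le _ _).trans ?_
          rw [abs_mul, abs_mul]
          have hd : |ph k x - ph k y| ≤ 3 * K * ‖x - y‖ := by
            refine (Pool.Agent.K3h70.EB.ph_diff_le k x y).trans ?_
            refine mul_le_mul_of_nonneg_right ?_ (norm_nonneg _)
            have h3 := mem_Bx.1 hk
            calc ∑ j, |(k j : ℝ)| ≤ ∑ _j : Fin 3, (K : ℝ) := Finset.sum_le_sum fun j _ => by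
                  have := h3 j
                  exact_mod_cast this
              _ = 3 * K := by simp
          have h1 := mul_le_mul ((cos_lip (ph k x) (ph k y)).trans hd) (hAi k hk) (abs_nonneg _)
            (by positivity)
          have h2 := mul_le_mul ((sin_lip (ph k x) (ph k y)).trans hd) (hBi k hk) (abs_nonneg _)
            (by positivity)
          linarith
      _ = _ := by rw [Finset.sum_const, nsmul_eq_mul]; ring

/-! ### the coefficients of a field -/

/-- the cosine coefficients -/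
noncomputable def cA (u : V → V) (k : Fin 3 → ℤ) : V := fun i =>
  (volume Dom).toReal⁻¹ * ∫ x in Dom, u x i * Real.cos (ph k x)
/-- the sine coefficients -/
noncomputable def cB (u : V → V) (k : Fin 3 → ℤ) : V := fun i =>
  (volume Dom).toReal⁻¹ * ∫ x in Dom, u x i * Real.sin (ph k x)

lemma coeff_re_im {u : V → V} (hp : Periodic3 u) (hc : Continuous u) (k : Fin 3 → ℤ) (i : Fin 3) :
    cA u k i = (coeff (fun x => u x i) k).re ∧ cB u k i = -(coeff (fun x => u x i) k).im := by
  have h : coeff (fun x => u x i) k = _ :=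
    (coeff_eq (comp_periodic hp i) ((continuous_apply i).comp hc) k).trans
      (cf_eq (comp_periodic hp i) ((continuous_apply i).comp hc) k)
  rw [h, vi_eq_inv]
  have key : ∀ v a b : ℝ, ((v : ℂ) * ((a : ℂ) - (b : ℂ) * Complex.I)).re = v * a ∧
      ((v : ℂ) * ((a : ℂ) - (b : ℂ) * Complex.I)).im = -(v * b) := by
    intro v a b
    constructor <;> simp
  obtain ⟨k1, k2⟩ := key (volume Dom).toReal⁻¹ (∫ x in Dom, u x i * Real.cos (ph k x))
    (∫ x in Dom, u x i * Real.sin (ph k x))
  refine ⟨k1.symm, ?_⟩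
  rw [k2, neg_neg]
  rfl

lemma cA_neg (u : V → V) (k : Fin 3 → ℤ) : cA u (-k) = cA u k := by
  ext i
  simp only [cA, ph_neg, Real.cos_neg]

lemma cB_neg (u : V → V) (k : Fin 3 → ℤ) : cB u (-k) = -cB u k := by
  ext i
  simp only [cB, ph_neg, Real.sin_neg, mul_neg, Pi.neg_apply]
  rw [integral_neg]
  ring

lemma ph_int {u : V → V} (hp : Periodic3 u) (hc : Continuous u) {η : Fin 3 → ℤ}
    (h : ∀ x, ph η (u x) = 0) {g : V → ℝ} (hg : Continuous g) (hgp : Periodic3 g) (c : ℝ) :
    ph η (fun i => c * ∫ x in Dom, u x i * g x) = 0 := by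
  have i1 : ∀ i, IntegrableOn (fun x => u x i * g x) Dom := fun i =>
    (mul_per (comp_periodic hp i) hgp).integrableOn (((continuous_apply i).comp hc).mul hg)
  have e : ph η (fun i => c * ∫ x in Dom, u x i * g x)
      = c * ∫ x in Dom, ∑ i, (η i : ℝ) * (u x i * g x) := by
    rw [integral_finsetSum _ (fun i _ => (i1 i).const_mul _), Finset.mul_sum]
    unfold ph
    refine Finset.sum_congr rfl fun i _ => ?_
    rw [integral_const_mul]
    ring
  have e2 : ∀ x, ∑ i, (η i : ℝ) * (u x i * g x) = 0 := by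
    intro x
    have h1 : ∑ i, (η i : ℝ) * (u x i * g x) = ph η (u x) * g x := by
      unfold ph
      rw [Finset.sum_mul]
      exact Finset.sum_congr rfl fun i _ => by ring
    rw [h1, h, zero_mul]
  rw [e]
  simp only [e2, integral_zero, mul_zero]

lemma cos_cont (k : Fin 3 → ℤ) : Continuous (fun x => Real.cos (ph k x)) :=
  Real.continuous_cos.comp (ph_contDiff k).continuous

lemma sin_cont (k : Fin 3 → ℤ) : Continuous (fun x => Real.sin (ph k x)) :=
  Real.continuous_sin.comp (ph_contDiff k).continuous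

lemma rt_tf (u : V → V) (K : ℕ) (x : V) (i : Fin 3) :
    ∑ k ∈ Bx K, rt (fun x => u x i) k x = tf K (cA u) (cB u) x i := by
  unfold tf rt cA cB
  rw [Finset.sum_apply]
  refine Finset.sum_congr rfl fun k _ => ?_
  simp only [Pi.add_apply, Pi.smul_apply, smul_eq_mul]
  ring

lemma ph_comp {u : V → V} (hp : Periodic3 u) (hc : Continuous u) (hd : WeakDivFree u)
    (k : Fin 3 → ℤ) : ph k (cA u k) = 0 ∧ ph k (cB u k) = 0 := by
  obtain ⟨h1, h2⟩ := ph_coeff hp (memLp_of_cont hc) hd k
  have e : ∀ (a : V) (c : ℝ), ph k (fun i => c * a i) = c * ph k a := fun a c => ph_smul k c a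
  constructor
  · exact (e _ _).trans (by rw [h1, mul_zero])
  · exact (e _ _).trans (by rw [h2, mul_zero])

lemma hb_of_bound {m : ℕ} (hm : 3 ≤ m) {u : V → V} (hp : Periodic3 u) (hc : Continuous u) {B : ℝ}
    (hB : ∀ F : Finset (Fin 3 → ℤ), ∑ k ∈ F, (1 + ∑ j, (k j : ℝ) ^ 2) ^ m
      * ∑ i, ‖coeff (fun x => u x i) k‖ ^ 2 ≤ B) : HB (Y302.Tri.cv u) B := by
  refine fun F => le_trans (Finset.sum_le_sum fun k _ => ?_) (hB F)
  have h1 : ∀ i, coeff (fun x => u x i) k = Y302.Tri.cv u i k := fun i =>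
    coeff_eq (comp_periodic hp i) ((continuous_apply i).comp hc) k
  simp only [h1]
  refine mul_le_mul_of_nonneg_right ?_ (Finset.sum_nonneg fun i _ => sq_nonneg _)
  have h2 : (1 : ℝ) ≤ 1 + ∑ j, (k j : ℝ) ^ 2 := by
    have : 0 ≤ ∑ j, (k j : ℝ) ^ 2 := Finset.sum_nonneg fun _ _ => sq_nonneg _
    linarith
  exact pow_le_pow_right₀ h2 hm

/-- a frequency is parallel to `η` if the cross product vanishes -/
lemma par_iff {k η : Fin 3 → ℤ} (hη : η ≠ 0) (hk : cr k η = 0) : ∃ c : ℝ, ∀ i, (k i : ℝ) = c * η i := by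
  have hn : ph η (rv η) ≠ 0 := by linarith [one_le_norm hη]
  have h0 := congrFun hk 0
  have h1 := congrFun hk 1
  have h2 := congrFun hk 2
  unfold cr at h0 h1 h2
  simp only [Matrix.cons_val_zero, Matrix.cons_val_one, Matrix.cons_val, Pi.zero_apply] at h0 h1 h2
  have g0 : (k 1 : ℝ) * η 2 - k 2 * η 1 = 0 := by exact_mod_cast h0
  have g1 : (k 2 : ℝ) * η 0 - k 0 * η 2 = 0 := by exact_mod_cast h1
  have g2 : (k 0 : ℝ) * η 1 - k 1 * η 0 = 0 := by exact_mod_cast h2
  refine ⟨ph k (rv η) / ph η (rv η), fun i => ?_⟩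
  have key : ph η (rv η) * k i = ph k (rv η) * η i := by
    unfold ph rv
    fin_cases i <;> simp only [Fin.sum_univ_three, Fin.zero_eta, Fin.mk_one, Fin.reduceFinMk]
    · linear_combination (η 1 : ℝ) * g2 - (η 2 : ℝ) * g1
    · linear_combination (η 2 : ℝ) * g0 - (η 0 : ℝ) * g2
    · linear_combination (η 0 : ℝ) * g1 - (η 1 : ℝ) * g0
  field_simp
  linarith

lemma TrigPoly.ph {a : ℝ → V} (h : ∀ i, TrigPoly (fun t => a t i)) (k : Fin 3 → ℤ) (c : ℝ) :
    TrigPoly (fun t => c * ph k (a t)) := by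
  refine TrigPoly.const_mul ?_ c
  exact TrigPoly.sum _ fun i _ => (h i).const_mul _

variable {m : ℕ} {η : Fin 3 → ℤ} {u : ℝ → V → V}

lemma IsPlanarPath.per (hu : IsPlanarPath m η u) (t : ℝ) : Periodic3 (u t) := (hu.field t).per
lemma IsPlanarPath.cont (hu : IsPlanarPath m η u) (t : ℝ) : Continuous (u t) := (hu.field t).cont

lemma IsPlanarPath.cA_cont (hu : IsPlanarPath m η u) (k : Fin 3 → ℤ) (i : Fin 3) :
    Continuous (fun t => cA (u t) k i) ∧ Continuous (fun t => cB (u t) k i) := by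
  have e1 : (fun t => cA (u t) k i) = fun t => (coeff (fun x => u t x i) k).re :=
    funext fun t => (coeff_re_im (hu.per t) (hu.cont t) k i).1
  have e2 : (fun t => cB (u t) k i) = fun t => -(coeff (fun x => u t x i) k).im :=
    funext fun t => (coeff_re_im (hu.per t) (hu.cont t) k i).2
  rw [e1, e2]
  exact ⟨Complex.continuous_re.comp (hu.continuous k i),
    (Complex.continuous_im.comp (hu.continuous k i)).neg⟩

lemma IsPlanarPath.avg (hu : IsPlanarPath m η u) (hη : η ≠ 0) {k : Fin 3 → ℤ} (hk : cr k η = 0)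
    (t : ℝ) : cA (u t) k = cA (u 0) k ∧ cB (u t) k = cB (u 0) k := by
  have h := hu.averages k (par_iff hη hk) t
  constructor
  · ext i
    rw [(coeff_re_im (hu.per t) (hu.cont t) k i).1, (coeff_re_im (hu.per 0) (hu.cont 0) k i).1, h]
  · ext i
    rw [(coeff_re_im (hu.per t) (hu.cont t) k i).2, (coeff_re_im (hu.per 0) (hu.cont 0) k i).2, h]

lemma _root_.Pool.Agent.K3h70.EB.SmallM.congr {M r ε : ℝ} {f g : V → ℝ} (h : SmallM M r ε f)
    (e : ∀ x, g x = f x) : SmallM M r ε g := by
  have : g = f := funext e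
  rw [this]; exact h

/-- equality of the modes -/
lemma modes_aux {v u : V → V} (hv : Periodic3 v) (hu : Periodic3 u) {K' : ℕ}
    {A B : (Fin 3 → ℤ) → V} {l : Fin 3 → ℤ} (hl : l ∈ Bx K') (i : Fin 3)
    (h1 : ∫ x in Dom, v x i * Real.cos (ph l x) = ∫ x in Dom, tf K' A B x i * Real.cos (ph l x))
    (h2 : ∫ x in Dom, v x i * Real.sin (ph l x) = ∫ x in Dom, tf K' A B x i * Real.sin (ph l x))
    (hA : A l = cA u l) (hA' : A (-l) = cA u (-l)) (hB : B l = cB u l)
    (hB' : B (-l) = cB u (-l)) :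
    cosCoeff l (fun x => v x i) = cosCoeff l (fun x => u x i) ∧
    sinCoeff l (fun x => v x i) = sinCoeff l (fun x => u x i) := by
  have hvol : (volume Dom).toReal ≠ 0 := vol_pos.ne'
  rw [cosCoeff_eq (comp_periodic hv i), cosCoeff_eq (comp_periodic hu i),
    sinCoeff_eq (comp_periodic hv i), sinCoeff_eq (comp_periodic hu i), h1, h2,
    (tf_coeff K' A B l i).1, (tf_coeff K' A B l i).2, if_pos hl, if_pos hl, hA, hA', hB, hB',
    cA_neg, cB_neg]
  constructor
  · show (volume Dom).toReal * ((cA u l i + cA u l i) / 2) = _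
    unfold cA
    field_simp
    ring
  · show (volume Dom).toReal * ((cB u l i - (-cB u l) i) / 2) = _
    rw [Pi.neg_apply]
    unfold cB
    field_simp
    ring

/-- **The approximation theorem for one accuracy.** -/
theorem core {M r : ℝ} (hM : 0 ≤ M) (hr : 2 < r) (hm : 3 ≤ m) (hη : η ≠ 0)
    (hu : IsPlanarPath m η u) (K : ℕ) {ε : ℝ} (hε : 0 < ε) (T : ℝ) (S : Finset ℝ) :
    ∃ v : ℝ → V → V, Eul v (fun _ => 0) ∧ QP v ∧ (∀ t x, ph η (v t x) = 0) ∧
      (∀ t ∈ S, SameModes K (v t) (u t)) ∧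
      ((∀ l : Fin 3 → ℤ, (∀ i, |l i| ≤ K) → ∀ i, TrigPoly (fun t => cosCoeff l (fun x => u t x i)) ∧
        TrigPoly (fun t => sinCoeff l (fun x => u t x i))) → ∀ t, SameModes K (v t) (u t)) ∧
      ∀ t ∈ Icc (-T) T, ∀ i, SmallM M r ε (fun x => v t x i - u t x i) := by
  classical
  have hr1 : 1 ≤ r := by linarith
  obtain ⟨R, hR⟩ : ∃ R : ℝ, ∀ t ∈ S, |t| ≤ R := by
    refine ⟨∑ t ∈ S, |t|, fun t ht => ?_⟩
    exact Finset.single_le_sum (f := fun t => |t|) (fun _ _ => abs_nonneg _) ht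
  set T' : ℝ := |T| + |R| + 1 with hT'
  have hT0 : 0 < T' := by positivity
  have hsub : ∀ t ∈ Icc (-T) T, t ∈ Icc (-T') T' := by
    intro t ht
    have h1 := le_abs_self T
    have h2 := abs_nonneg R
    exact ⟨by linarith [ht.1], by linarith [ht.2]⟩
  have hS : ∀ t ∈ S, t ∈ Icc (-T') T' := fun t ht => by
    have h1 := (hR t ht).trans (le_abs_self R)
    have h2 := abs_nonneg T
    rw [abs_le] at h1
    exact ⟨by linarith [h1.1], by linarith [h1.2]⟩
  obtain ⟨B, hB⟩ := hu.bounded T'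
  obtain ⟨K', hKK', htail⟩ := tail_unif hM hr1 B K (η := ε / 3) (by positivity)
  -- the accuracy of the coefficients
  set Cc : ℝ := ∑ k ∈ Bx K', ‖rv (cr k η)‖ with hCc
  have hCc0 : 0 ≤ Cc := Finset.sum_nonneg fun k _ => norm_nonneg _
  have hCk : ∀ k ∈ Bx K', ‖rv (cr k η)‖ ≤ Cc := fun k hk =>
    Finset.single_le_sum (f := fun k => ‖rv (cr k η)‖) (fun _ _ => norm_nonneg _) hk
  set vol : ℝ := (volume Dom).toReal with hvol
  have hvol0 : 0 < vol := vol_pos
  set Q : ℝ := (M + vol) * (2 * (Bx K').card) + 2 * (M * (2 * (3 * K') * (Bx K').card)) with hQ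
  have hQ0 : 0 ≤ Q := by positivity
  set δ' : ℝ := ε / 3 / (Q + 1) with hδ'
  have hδ'0 : 0 < δ' := by positivity
  have hQδ : Q * δ' ≤ ε / 3 := by
    rw [hδ', mul_div_assoc', div_le_iff₀ (by positivity)]
    nlinarith
  set δ : ℝ := δ' / (Cc + 1) with hδ
  have hδ0 : 0 < δ := by positivity
  have hCδ : δ * Cc ≤ δ' := by
    rw [hδ, div_mul_eq_mul_div, div_le_iff₀ (by positivity)]
    nlinarith
  -- the amplitudes
  set F : (Fin 3 → ℤ) → ℝ → ℝ := fun k t =>
    (ph (cr k η) (rv (cr k η)))⁻¹ * ph (cr k η) (cA (u t) k) with hF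
  set G : (Fin 3 → ℤ) → ℝ → ℝ := fun k t =>
    (ph (cr k η) (rv (cr k η)))⁻¹ * ph (cr k η) (cB (u t) k) with hG
  have hFc : ∀ k, Continuous (F k) := fun k => continuous_const.mul
    (continuous_finsetSum _ fun i _ => continuous_const.mul (hu.cA_cont k i).1)
  have hGc : ∀ k, Continuous (G k) := fun k => continuous_const.mul
    (continuous_finsetSum _ fun i _ => continuous_const.mul (hu.cA_cont k i).2)
  have hpk := fun t k => ph_comp (hu.per t) (hu.cont t) (hu.field t).div_free k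
  have hηA : ∀ t k, ph η (cA (u t) k) = 0 := fun t k =>
    ph_int (hu.per t) (hu.cont t) (hu.planar t) (cos_cont k) (cos_periodic k) _
  have hηB : ∀ t k, ph η (cB (u t) k) = 0 := fun t k =>
    ph_int (hu.per t) (hu.cont t) (hu.planar t) (sin_cont k) (sin_periodic k) _
  have hAF : ∀ t k, cr k η ≠ 0 → cA (u t) k = F k t • rv (cr k η) := fun t k hk =>
    span_cr hk (hpk t k).1 (hηA t k)
  have hBG : ∀ t k, cr k η ≠ 0 → cB (u t) k = G k t • rv (cr k η) := fun t k hk =>
    span_cr hk (hpk t k).2 (hηB t k)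
  choose f f1 f2 f3 f4 using fun k => exists_trigPoly' (hFc k) hT0 hδ0 hS
  choose g g1 g2 g3 g4 using fun k => exists_trigPoly' (hGc k) hT0 hδ0 hS
  set A : ℝ → (Fin 3 → ℤ) → V := fun t k =>
    if cr k η = 0 then cA (u 0) k else f k t • rv (cr k η) with hA
  set B' : ℝ → (Fin 3 → ℤ) → V := fun t k =>
    if cr k η = 0 then cB (u 0) k else g k t • rv (cr k η) with hB'
  have hrep : Rep η K' (fun t x => tf K' (A t) (B' t) x) := by
    refine rep_tf hη (f := f) (g := g) (fun k _ _ => f1 k) (fun k _ _ => g1 k)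
      (fun k _ hk t => by simp only [hA, if_neg hk]) (fun k _ hk t => by simp only [hB', if_neg hk])
      (fun k _ hk => ⟨?_, fun t => by simp only [hA, if_pos hk]⟩)
      (fun k _ hk => ⟨?_, fun t => by simp only [hB', if_pos hk]⟩)
    · simp only [hA, if_pos hk]
      exact hηA 0 k
    · simp only [hB', if_pos hk]
      exact hηB 0 k
  obtain ⟨ι, hι, D, hD, hU⟩ := hrep
  obtain ⟨v, hv1, hv2, hv3, hv4, hv5⟩ := build hM hr hη hD (ε := ε / 3) (by positivity)
  simp only [← hU] at hv4 hv5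
  have hneg : ∀ {l : Fin 3 → ℤ}, l ∈ Bx K' → -l ∈ Bx K' := by
    intro l hl
    rw [mem_Bx] at hl ⊢
    intro i
    rw [Pi.neg_apply, abs_neg]
    exact hl i
  have hmodes : ∀ t, ∀ l ∈ Bx K', A t l = cA (u t) l → A t (-l) = cA (u t) (-l) →
      B' t l = cB (u t) l → B' t (-l) = cB (u t) (-l) → ∀ i,
      cosCoeff l (fun x => v t x i) = cosCoeff l (fun x => u t x i) ∧
      sinCoeff l (fun x => v t x i) = sinCoeff l (fun x => u t x i) := by
    intro t l hl e1 e2 e3 e4 i
    obtain ⟨p1, p2⟩ := hv4 t l (mem_Bx.1 hl) i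
    exact modes_aux (hv1.per t) (hu.per t) hl i p1 p2 e1 e2 e3 e4
  have hBK : ∀ {l : Fin 3 → ℤ}, (∀ i, |l i| ≤ K) → l ∈ Bx K' := by
    intro l hl
    rw [mem_Bx]
    intro i
    refine (hl i).trans ?_
    exact_mod_cast hKK'
  have hcoin : ∀ t k, (cr k η ≠ 0 → f k t = F k t ∧ g k t = G k t) →
      A t k = cA (u t) k ∧ B' t k = cB (u t) k := by
    intro t k h
    by_cases hk : cr k η = 0
    · simp only [hA, hB', if_pos hk]
      obtain ⟨h1, h2⟩ := hu.avg hη hk t
      exact ⟨h1.symm, h2.symm⟩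
    · simp only [hA, hB', if_neg hk]
      obtain ⟨h1, h2⟩ := h hk
      rw [h1, h2, ← hAF t k hk, ← hBG t k hk]
      exact ⟨rfl, rfl⟩
  refine ⟨v, hv1, hv2, hv3, fun t ht l hl i => ?_, fun htr t l hl i => ?_, fun t ht i => ?_⟩
  · have h1 := hcoin t l fun _ => ⟨f2 l t ht, g2 l t ht⟩
    have h2 := hcoin t (-l) fun _ => ⟨f2 (-l) t ht, g2 (-l) t ht⟩
    exact hmodes t l (hBK hl) h1.1 h2.1 h1.2 h2.2 i
  · have key : ∀ k : Fin 3 → ℤ, (∀ i, |k i| ≤ K) → ∀ t, A t k = cA (u t) k ∧ B' t k = cB (u t) k := by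
      intro k hk t
      refine hcoin t k fun _ => ?_
      have t1 : ∀ i, TrigPoly (fun t => cA (u t) k i) := by
        intro i
        refine ((htr k hk i).1.const_mul vol⁻¹).congr fun t => ?_
        rw [cosCoeff_eq (comp_periodic (hu.per t) i)]
        rfl
      have t2 : ∀ i, TrigPoly (fun t => cB (u t) k i) := by
        intro i
        refine ((htr k hk i).2.const_mul vol⁻¹).congr fun t => ?_
        rw [sinCoeff_eq (comp_periodic (hu.per t) i)]
        rfl
      exact ⟨congrFun (f4 k (TrigPoly.ph t1 _ _)) t, congrFun (g4 k (TrigPoly.ph t2 _ _)) t⟩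
    have h1 := key l hl t
    have h2 := key (-l) (fun i => by rw [Pi.neg_apply, abs_neg]; exact hl i) t
    exact hmodes t l (hBK hl) h1.1 h2.1 h1.2 h2.2 i
  · have ht' := hsub t ht
    obtain ⟨s1, b1⟩ := htail (u t) (hu.per t) (hu.cont t)
      (hb_of_bound hm (hu.per t) (hu.cont t) (hB t ht')) i
    simp only [rt_tf] at s1 b1
    have s2 := hv5 t i
    set dA : (Fin 3 → ℤ) → V := fun k => A t k - cA (u t) k with hdA
    set dB : (Fin 3 → ℤ) → V := fun k => B' t k - cB (u t) k with hdB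
    have hdAle : ∀ k ∈ Bx K', ‖dA k‖ ≤ δ' := by
      intro k hk
      by_cases hk0 : cr k η = 0
      · have : dA k = 0 := by
          simp only [hdA, hA, if_pos hk0]
          rw [(hu.avg hη hk0 t).1, sub_self]
        rw [this, norm_zero]
        exact hδ'0.le
      · have : dA k = (f k t - F k t) • rv (cr k η) := by
          simp only [hdA, hA, if_neg hk0]
          rw [hAF t k hk0, sub_smul]
        rw [this, norm_smul, Real.norm_eq_abs]
        refine le_trans ?_ hCδ
        exact mul_le_mul (f3 k t ht') (hCk k hk) (norm_nonneg _) hδ0.le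
    have hdBle : ∀ k ∈ Bx K', ‖dB k‖ ≤ δ' := by
      intro k hk
      by_cases hk0 : cr k η = 0
      · have : dB k = 0 := by
          simp only [hdB, hB', if_pos hk0]
          rw [(hu.avg hη hk0 t).2, sub_self]
        rw [this, norm_zero]
        exact hδ'0.le
      · have : dB k = (g k t - G k t) • rv (cr k η) := by
          simp only [hdB, hB', if_neg hk0]
          rw [hBG t k hk0, sub_smul]
        rw [this, norm_smul, Real.norm_eq_abs]
        refine le_trans ?_ hCδ
        exact mul_le_mul (g3 k t ht') (hCk k hk) (norm_nonneg _) hδ0.le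
    have hhd := tf_hh K' hδ'0.le hdAle hdBle i
    have s3 : SmallM M r (ε / 3) (fun x => tf K' dA dB x i) :=
      (smallM_of_lip hr1 hhd.cont hhd.bdd (by positivity) hhd.lip).mono (by linarith) (by
        refine le_trans (le_of_eq ?_) hQδ
        rw [hQ]
        ring)
    have hlin : ∀ x, tf K' dA dB x i = tf K' (A t) (B' t) x i
        - tf K' (cA (u t)) (cB (u t)) x i := by
      intro x
      have e : tf K' dA dB x = tf K' (A t) (B' t) x - tf K' (cA (u t)) (cB (u t)) x := by
        unfold tf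
        rw [← Finset.sum_sub_distrib]
        refine Finset.sum_congr rfl fun k _ => ?_
        simp only [hdA, hdB, smul_sub]
        abel
      rw [e]
      rfl
    have bv : Bdc (fun x => v t x i - tf K' (A t) (B' t) x i) := by
      have hc : Continuous (fun x => v t x i - tf K' (A t) (B' t) x i) := by
        have hvc : Continuous (v t) := by
          have := hv1.joint.continuous.comp (continuous_const.prodMk continuous_id :
            Continuous (fun x : V => ((t, x) : ℝ × V)))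
          exact this
        exact ((continuous_apply i).comp hvc).sub
          ((continuous_apply i).comp (tf_cont K' (A t) (B' t)))
      have hp : Periodic3 (fun x => v t x i - tf K' (A t) (B' t) x i) := by
        intro j x
        have e1 := hv1.per t j x
        have e2 := tf_per K' (A t) (B' t) j x
        show v t _ i - tf K' (A t) (B' t) _ i = _
        rw [e1, e2]
      obtain ⟨C, -, hC⟩ := hp.bounded hc
      exact ⟨hc, C, hC⟩
    have s1' := s1.const_mul (-1)
    rw [abs_neg, abs_one, one_mul] at s1'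
    have b1' : Bdc (fun x => -1 * (u t x i - tf K' (cA (u t)) (cB (u t)) x i)) := by
      obtain ⟨c1, c2, c3⟩ := b1
      exact ⟨continuous_const.mul c1, c2, fun x => by
        rw [abs_mul, abs_neg, abs_one, one_mul]; exact c3 x⟩
    have b12 : Bdc (fun x => tf K' dA dB x i
        + -1 * (u t x i - tf K' (cA (u t)) (cB (u t)) x i)) := by
      obtain ⟨c1, c2, c3⟩ := b1'
      obtain ⟨d1, d2, d3⟩ := hhd.bdc
      exact ⟨d1.add c1, d2 + c2, fun x => (abs_add_le _ _).trans (add_le_add (d3 x) (c3 x))⟩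
    have h4 := SmallM.add hr1 bv b12 s2 (SmallM.add hr1 hhd.bdc b1' s3 s1')
    refine (SmallM.mono (by linarith) (h4) (le_of_eq (by ring))).congr fun x => ?_
    rw [hlin]
    ring

end Pool.Agent.K3h70.PP
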