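import Pool.Agent.K3h70.PP.Slab
import Pool.Agent.K3h70.EP.Main

/-!
# Planar flows made of waves carried by slabs
-/

set_option autoImplicit false

open MeasureTheory Set Filter Topology
open scoped ENNReal ContDiff

namespace Pool.Agent.K3h70.PP

open Pool.Agent.K3h70.EB Pool.Agent.K3h70.EP
open Pool.Agent.K3h70.EP.TD (ph_single_one)
open Pool.Agent.H708R2.EulerSign Pool.Agent.H708R2.EulerModes

/-- A pencil of plane waves carried by the constant velocity `a`. -/
structure Pen where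
  F : Finset (Fin 3 → ℤ)
  A : (Fin 3 → ℤ) → V
  B : (Fin 3 → ℤ) → V
  a : V

namespace Pen

variable (D : Pen)

/-- The conditions on a pencil: frequencies at most `K`, all vectors orthogonal to `η`, and all
amplitudes orthogonal to all frequencies. -/
structure Ok (η : Fin 3 → ℤ) (K : ℕ) : Prop where
  band : ∀ k ∈ D.F, ∀ i, |k i| ≤ K
  ηa : ph η D.a = 0
  ηA : ∀ k ∈ D.F, ph η (D.A k) = 0
  ηB : ∀ k ∈ D.F, ph η (D.B k) = 0
  AA : ∀ k ∈ D.F, ∀ l ∈ D.F, ph k (D.A l) = 0
  BB : ∀ k ∈ D.F, ∀ l ∈ D.F, ph k (D.B l) = 0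

/-- the field -/
noncomputable def w (t : ℝ) (x : V) : V :=
  ∑ k ∈ D.F, (Real.cos (ph k x - t * ph k D.a) • D.A k
    + Real.sin (ph k x - t * ph k D.a) • D.B k)

/-- its derivative -/
noncomputable def dw (t : ℝ) (x : V) : V →L[ℝ] V :=
  ∑ k ∈ D.F, (phL k).smulRight (-Real.sin (ph k x - t * ph k D.a) • D.A k
    + Real.cos (ph k x - t * ph k D.a) • D.B k)

lemma dw_apply (t : ℝ) (x e : V) : D.dw t x e
    = ∑ k ∈ D.F, ph k e • (-Real.sin (ph k x - t * ph k D.a) • D.A k
    + Real.cos (ph k x - t * ph k D.a) • D.B k) := by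
  unfold dw
  rw [ContinuousLinearMap.sum_apply]
  refine Finset.sum_congr rfl fun k _ => ?_
  rw [ContinuousLinearMap.smulRight_apply, phL_apply]

lemma w_hasFDerivAt (t : ℝ) (x : V) : HasFDerivAt (D.w t) (D.dw t x) x := by
  unfold w dw
  refine HasFDerivAt.fun_sum fun k _ => ?_
  have h0 : HasFDerivAt (fun y => ph k y - t * ph k D.a) (phL k) x := by
    have h1 := ((phL k).hasFDerivAt (x := x)).sub_const (t * ph k D.a)
    simpa only [phL_apply] using h1
  have hc := h0.cos.smul_const (D.A k)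
  have hs := h0.sin.smul_const (D.B k)
  refine (hc.add hs).congr_fderiv ?_
  ext e i
  simp only [ContinuousLinearMap.add_apply, ContinuousLinearMap.smulRight_apply,
    ContinuousLinearMap.smul_apply, Pi.add_apply, Pi.smul_apply, smul_eq_mul]
  ring

lemma w_hasDerivAt (t : ℝ) (x : V) : HasDerivAt (fun s => D.w s x) (-(D.dw t x D.a)) t := by
  rw [dw_apply]
  unfold w
  rw [← Finset.sum_neg_distrib]
  refine HasDerivAt.fun_sum fun k _ => ?_
  have h0 : HasDerivAt (fun s : ℝ => ph k x - s * ph k D.a) (-(ph k D.a)) t := by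
    have h1 := ((hasDerivAt_id t).mul_const (ph k D.a)).const_sub (ph k x)
    simpa using h1
  have hc := h0.cos.smul_const (D.A k)
  have hs := h0.sin.smul_const (D.B k)
  refine (hc.add hs).congr_deriv ?_
  ext i
  simp only [Pi.add_apply, Pi.smul_apply, smul_eq_mul, Pi.neg_apply]
  ring

lemma w_joint : ContDiff ℝ ∞ (fun z : ℝ × V => D.w z.1 z.2) := by
  unfold w
  refine ContDiff.sum fun k _ => ?_
  have h0 : ContDiff ℝ ∞ (fun z : ℝ × V => ph k z.2 - z.1 * ph k D.a) :=
    ((ph_contDiff k).comp contDiff_snd).sub (contDiff_fst.mul contDiff_const)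
  exact ((Real.contDiff_cos.comp h0).smul contDiff_const).add
    ((Real.contDiff_sin.comp h0).smul contDiff_const)

lemma w_shift (t : ℝ) (x : V) : D.w t x = D.w 0 (x - t • D.a) := by
  unfold w
  refine Finset.sum_congr rfl fun k _ => ?_
  have : ph k (x - t • D.a) - 0 * ph k D.a = ph k x - t * ph k D.a := by
    rw [sub_eq_add_neg x, ph_add, ← neg_smul, ph_smul]
    ring
  rw [this]

lemma w_per (t : ℝ) : Periodic3 (D.w t) := by
  intro i x
  unfold w
  refine Finset.sum_congr rfl fun k _ => ?_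
  have e : ph k (x + Pi.single i (2 * Real.pi)) - t * ph k D.a
      = (ph k x - t * ph k D.a) + (k i : ℝ) * (2 * Real.pi) := by
    rw [ph_add, ph_single]
    ring
  rw [e, Real.cos_add_int_mul_two_pi, Real.sin_add_int_mul_two_pi]

lemma w_smooth (t : ℝ) : ContDiff ℝ ∞ (D.w t) := by
  have := D.w_joint.comp (contDiff_prodMk_right (𝕜 := ℝ) (n := ∞) (E := ℝ) (F := V) t)
  exact this

variable {D} {η : Fin 3 → ℤ} {K : ℕ}

lemma ph_sum' (l : Fin 3 → ℤ) {ι : Type*} (s : Finset ι) (f : ι → V) :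
    ph l (∑ j ∈ s, f j) = ∑ j ∈ s, ph l (f j) := by
  simp only [← phL_apply, map_sum]

lemma eta_w (h : D.Ok η K) (t : ℝ) (x : V) : ph η (D.w t x) = 0 := by
  unfold w
  rw [ph_sum']
  refine Finset.sum_eq_zero fun k hk => ?_
  rw [ph_add, ph_smul, ph_smul, h.ηA k hk, h.ηB k hk]
  ring

lemma k_w (h : D.Ok η K) (t : ℝ) (x : V) {k : Fin 3 → ℤ} (hk : k ∈ D.F) :
    ph k (D.w t x) = 0 := by
  unfold w
  rw [ph_sum']
  refine Finset.sum_eq_zero fun l hl => ?_
  rw [ph_add, ph_smul, ph_smul, h.AA k hk l hl, h.BB k hk l hl]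
  ring

lemma dw_w (h : D.Ok η K) (t : ℝ) (x : V) : D.dw t x (D.w t x) = 0 := by
  rw [dw_apply]
  refine Finset.sum_eq_zero fun k hk => ?_
  rw [k_w h t x hk, zero_smul]

lemma div_w (h : D.Ok η K) (t : ℝ) (x : V) :
    ∑ i, D.dw t x (Pi.single i 1) i = 0 := by
  simp only [dw_apply, Finset.sum_apply, ph_single_one]
  rw [Finset.sum_comm]
  refine Finset.sum_eq_zero fun k hk => ?_
  have e : ∑ i, (k i : ℝ) * (D.A k) i = 0 := h.AA k hk k hk
  have e' : ∑ i, (k i : ℝ) * (D.B k) i = 0 := h.BB k hk k hk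
  have : ∀ i, ((k i : ℝ) • (-Real.sin (ph k x - t * ph k D.a) • D.A k
      + Real.cos (ph k x - t * ph k D.a) • D.B k)) i
      = -Real.sin (ph k x - t * ph k D.a) * ((k i : ℝ) * (D.A k) i)
        + Real.cos (ph k x - t * ph k D.a) * ((k i : ℝ) * (D.B k) i) := by
    intro i
    simp only [Pi.add_apply, Pi.smul_apply, smul_eq_mul]
    ring
  simp only [this]
  rw [Finset.sum_add_distrib, ← Finset.mul_sum, ← Finset.mul_sum, e, e']
  ring

end Pen

variable {ι : Type} [Fintype ι]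

/-- The planar flow. -/
noncomputable def vel (η : Fin 3 → ℤ) (D : ι → Pen) (Ψ X : ι → ℝ → ℝ) (t : ℝ) (x : V) : V :=
  ∑ j, (X j (ph η x) • (D j).a + Ψ j (ph η x) • (D j).w t x)

section

variable {η : Fin 3 → ℤ} {K : ℕ} {D : ι → Pen} {Ψ X : ι → ℝ → ℝ}

lemma eta_vel (hD : ∀ j, (D j).Ok η K) (t : ℝ) (x : V) : ph η (vel η D Ψ X t x) = 0 := by
  unfold vel
  rw [Pen.ph_sum']
  refine Finset.sum_eq_zero fun j _ => ?_
  rw [ph_add, ph_smul, ph_smul, (hD j).ηa, Pen.eta_w (hD j)]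
  ring

lemma vel_hasFDerivAt' (hΨ : ∀ j, ContDiff ℝ ∞ (Ψ j)) (hX : ∀ j, ContDiff ℝ ∞ (X j)) (t : ℝ)
    (x : V) : HasFDerivAt (vel η D Ψ X t)
      (∑ j, ((deriv (X j) (ph η x) • phL η).smulRight (D j).a
        + (Ψ j (ph η x) • (D j).dw t x
          + (deriv (Ψ j) (ph η x) • phL η).smulRight ((D j).w t x)))) x := by
  unfold vel
  refine HasFDerivAt.fun_sum fun j _ => ?_
  have hph : HasFDerivAt (fun y => ph η y) (phL η) x := by
    have h1 := ((phL η).hasFDerivAt (x := x))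
    have e : (fun y => ph η y) = ⇑(phL η) := by ext1 y; rw [phL_apply]
    rw [e]
    exact h1
  have h1 : HasDerivAt (X j) (deriv (X j) (ph η x)) (ph η x) :=
    ((hX j).differentiable (by simp) _).hasDerivAt
  have h2 : HasDerivAt (Ψ j) (deriv (Ψ j) (ph η x)) (ph η x) :=
    ((hΨ j).differentiable (by simp) _).hasDerivAt
  have g1 := (h1.comp_hasFDerivAt x hph).smul_const (D j).a
  have g2 := (h2.comp_hasFDerivAt x hph).smul ((D j).w_hasFDerivAt t x)
  exact g1.add g2

lemma vel_fderiv' (hΨ : ∀ j, ContDiff ℝ ∞ (Ψ j)) (hX : ∀ j, ContDiff ℝ ∞ (X j)) (t : ℝ)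
    (x e : V) : fderiv ℝ (vel η D Ψ X t) x e
      = ∑ j, ((deriv (X j) (ph η x) * ph η e) • (D j).a
        + (Ψ j (ph η x) • (D j).dw t x e
          + (deriv (Ψ j) (ph η x) * ph η e) • (D j).w t x)) := by
  rw [(vel_hasFDerivAt' hΨ hX t x).fderiv, ContinuousLinearMap.sum_apply]
  refine Finset.sum_congr rfl fun j _ => ?_
  simp only [ContinuousLinearMap.add_apply, ContinuousLinearMap.smulRight_apply,
    ContinuousLinearMap.smul_apply, phL_apply, smul_eq_mul]

lemma absorb_vel (habs : ∀ j s, Ψ j s * X j s = Ψ j s)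
    (hdis : ∀ i j, i ≠ j → ∀ s, X i s * X j s = 0) (j : ι) (t : ℝ) (x : V) :
    Ψ j (ph η x) • vel η D Ψ X t x
      = Ψ j (ph η x) • (D j).a + (Ψ j (ph η x) * Ψ j (ph η x)) • (D j).w t x := by
  classical
  set s := ph η x with hs
  have h1 : ∀ l, l ≠ j → Ψ j s * X l s = 0 := by
    intro l hl
    calc Ψ j s * X l s = Ψ j s * (X j s * X l s) := by rw [← mul_assoc, habs]
      _ = 0 := by rw [hdis j l hl.symm, mul_zero]
  have h2 : ∀ l, l ≠ j → Ψ j s * Ψ l s = 0 := by
    intro l hl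
    calc Ψ j s * Ψ l s = Ψ j s * (Ψ l s * X l s) := by rw [habs l s]
      _ = Ψ l s * (Ψ j s * X l s) := by ring
      _ = 0 := by rw [h1 l hl, mul_zero]
  unfold vel
  rw [Finset.smul_sum, Finset.sum_eq_single j]
  · rw [smul_add, smul_smul, smul_smul, ← hs, habs]
  · intro l _ hl
    rw [smul_add, smul_smul, smul_smul, ← hs, h1 l hl, h2 l hl, zero_smul, zero_smul, add_zero]
  · intro h
    exact absurd (Finset.mem_univ j) h

/-- **The flow equations.** -/
theorem vel_eul (hD : ∀ j, (D j).Ok η K) (hΨ : ∀ j, ContDiff ℝ ∞ (Ψ j))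
    (hX : ∀ j, ContDiff ℝ ∞ (X j)) (habs : ∀ j s, Ψ j s * X j s = Ψ j s)
    (hdis : ∀ i j, i ≠ j → ∀ s, X i s * X j s = 0)
    (hΨp : ∀ j, Periodic3 (fun x => Ψ j (ph η x))) (hXp : ∀ j, Periodic3 (fun x => X j (ph η x))) :
    Eul (vel η D Ψ X) (fun _ => 0) := by
  refine ⟨?_, contDiff_const, fun t i x => ?_, fun _ _ => rfl, fun t x => ?_, fun t x i => ?_⟩
  · unfold vel
    refine ContDiff.sum fun j _ => ?_
    have h1 : ContDiff ℝ ∞ (fun z : ℝ × V => ph η z.2) := (ph_contDiff η).comp contDiff_snd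
    exact (((hX j).comp h1).smul contDiff_const).add (((hΨ j).comp h1).smul (D j).w_joint)
  · unfold vel
    refine Finset.sum_congr rfl fun j _ => ?_
    have e1 := hΨp j i x
    have e2 := hXp j i x
    simp only at e1 e2
    rw [e1, e2, (D j).w_per t i x]
  · rw [divergence_eq_sum]
    simp only [vel_fderiv' hΨ hX, ph_single_one, Finset.sum_apply]
    rw [Finset.sum_comm]
    refine Finset.sum_eq_zero fun j _ => ?_
    have e1 : ∑ i, (η i : ℝ) * (D j).a i = 0 := (hD j).ηa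
    have e2 : ∑ i, (η i : ℝ) * (D j).w t x i = 0 := Pen.eta_w (hD j) t x
    have e3 := Pen.div_w (hD j) t x
    have : ∀ i, ((deriv (X j) (ph η x) * (η i : ℝ)) • (D j).a
        + (Ψ j (ph η x) • (D j).dw t x (Pi.single i 1)
          + (deriv (Ψ j) (ph η x) * (η i : ℝ)) • (D j).w t x)) i
        = deriv (X j) (ph η x) * ((η i : ℝ) * (D j).a i)
        + Ψ j (ph η x) * (D j).dw t x (Pi.single i 1) i
        + deriv (Ψ j) (ph η x) * ((η i : ℝ) * (D j).w t x i) := by
      intro i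
      simp only [Pi.add_apply, Pi.smul_apply, smul_eq_mul]
      ring
    simp only [this]
    rw [Finset.sum_add_distrib, Finset.sum_add_distrib, ← Finset.mul_sum, ← Finset.mul_sum,
      ← Finset.mul_sum, e1, e2, e3]
    ring
  · have hd : HasDerivAt (fun s => vel η D Ψ X s x)
        (∑ j, Ψ j (ph η x) • (-((D j).dw t x (D j).a))) t := by
      unfold vel
      refine HasDerivAt.fun_sum fun j _ => ?_
      have := (((D j).w_hasDerivAt t x).const_smul (Ψ j (ph η x))).const_add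
        (X j (ph η x) • (D j).a)
      exact this
    have hd' : deriv (fun s => vel η D Ψ X s x i) t
        = (∑ j, Ψ j (ph η x) • (-((D j).dw t x (D j).a))) i :=
      ((hasDerivAt_pi.1 hd) i).deriv
    have hf : fderiv ℝ (vel η D Ψ X t) x (vel η D Ψ X t x)
        = ∑ j, Ψ j (ph η x) • (D j).dw t x (D j).a := by
      rw [vel_fderiv' hΨ hX, eta_vel hD]
      refine Finset.sum_congr rfl fun j _ => ?_
      rw [mul_zero, mul_zero, zero_smul, zero_smul, zero_add, add_zero,
        ← ContinuousLinearMap.map_smul, absorb_vel habs hdis, map_add, map_smul, map_smul,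
        Pen.dw_w (hD j), smul_zero, add_zero]
    rw [hd', hf]
    simp [smul_neg, Finset.sum_neg_distrib]

end

end Pool.Agent.K3h70.PP
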