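import Pool.Agent.K3h70.PP.Core

/-!
# Planar paths: sequences, and the failure for `r ≤ 2`
-/

set_option autoImplicit false

open MeasureTheory Set Filter Topology
open scoped ENNReal ContDiff SchwartzMap

namespace Pool.Agent.K3h70.PP

open Pool.Agent.K3h70.EB Pool.Agent.K3h70.EP
open Pool.Agent.H708R2.EulerSign Pool.Agent.H708R2.EulerModes
open Pool.Agent.Y302.Tri (cf vi vi_pos vi_eq cf_eq HB en en_nonneg)

variable {m : ℕ} {η : Fin 3 → ℤ} {u : ℝ → V → V}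

/-- **Planar paths are limits of planar flows.** -/
theorem planar_seq (hm : 3 ≤ m) (hη : η ≠ 0) (hu : IsPlanarPath m η u) (S : ℕ → Finset ℝ) :
    ∃ v : ℕ → ℝ → V → V,
      (∀ n, IsGlobalFlow (v n) (fun _ => 0) ∧ (∀ t x, ∑ i, (η i : ℝ) * v n t x i = 0) ∧
        (∀ t ∈ S n, SameModes n (v n t) (u t)) ∧
        ((∀ l : Fin 3 → ℤ, (∀ i, |l i| ≤ n) → ∀ i,
          TrigPoly (fun t => cosCoeff l (fun x => u t x i)) ∧
          TrigPoly (fun t => sinCoeff l (fun x => u t x i))) → ∀ t, SameModes n (v n t) (u t))) ∧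
      ∀ χ ψ : 𝓢(V, ℝ), ∫ y, ψ y = 0 → ∀ r : ℝ, 2 < r → ∀ T : ℝ,
        Tendsto (fun n => ⨆ t ∈ Icc (-T) T, besov χ ψ r (fun x => v n t x - u t x)) atTop
          (𝓝 0) := by
  have hr : ∀ n : ℕ, (2 : ℝ) < 2 + 1 / ((n : ℝ) + 1) := fun n => by
    have : (0 : ℝ) < 1 / ((n : ℝ) + 1) := Nat.one_div_pos_of_nat
    linarith
  have hε : ∀ n : ℕ, (0 : ℝ) < 1 / ((n : ℝ) + 1) := fun n => Nat.one_div_pos_of_nat
  choose v h1 h2 h3 h4 h5 h6 using fun n : ℕ =>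
    core (M := (n : ℝ)) (Nat.cast_nonneg n) (hr n) hm hη hu n (hε n) n (S n)
  refine ⟨v, fun n => ⟨(h1 n).global (h2 n), h3 n, h4 n, h5 n⟩, fun χ ψ h0 r hr2 T => ?_⟩
  obtain ⟨M₁, hM₁, hχ₁⟩ := exists_ker χ
  obtain ⟨M₂, hM₂, hψ₂⟩ := exists_ker ψ
  have hlim : Tendsto (fun n : ℕ => ENNReal.ofReal (4 * (1 / ((n : ℝ) + 1)))) atTop (𝓝 0) := by
    have h : Tendsto (fun n : ℕ => 4 * (1 / ((n : ℝ) + 1))) atTop (𝓝 (4 * 0)) :=
      tendsto_one_div_add_atTop_nhds_zero_nat.const_mul 4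
    rw [mul_zero] at h
    rw [← ENNReal.ofReal_zero]
    exact ENNReal.tendsto_ofReal h
  refine tendsto_of_tendsto_of_tendsto_of_le_of_le' tendsto_const_nhds hlim
    (Eventually.of_forall fun n => zero_le) ?_
  have e1 : ∀ᶠ n : ℕ in atTop, M₁ ≤ n := tendsto_natCast_atTop_atTop.eventually_ge_atTop M₁
  have e2 : ∀ᶠ n : ℕ in atTop, M₂ ≤ n := tendsto_natCast_atTop_atTop.eventually_ge_atTop M₂
  have e4 : ∀ᶠ n : ℕ in atTop, T ≤ n := tendsto_natCast_atTop_atTop.eventually_ge_atTop T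
  have e3 : ∀ᶠ n : ℕ in atTop, 1 / ((n : ℝ) + 1) < r - 2 :=
    tendsto_one_div_add_atTop_nhds_zero_nat.eventually_lt_const (by linarith)
  filter_upwards [e1, e2, e3, e4] with n a1 a2 a3 a4
  refine iSup₂_le fun t ht => ?_
  have ht' : t ∈ Icc (-(n : ℝ)) n := ⟨by linarith [ht.1], ht.2.trans a4⟩
  have hvc : Continuous (v n t) := by
    have := (h1 n).joint.continuous.comp (continuous_const.prodMk continuous_id :
      Continuous (fun x : V => ((t, x) : ℝ × V)))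
    exact this
  have bd : ∀ i, Bdc (fun x => (v n t x - u t x) i) := by
    intro i
    have hc : Continuous (fun x => (v n t x - u t x) i) :=
      (continuous_apply i).comp (hvc.sub (hu.cont t))
    have hp : Periodic3 (fun x => (v n t x - u t x) i) := by
      intro j x
      show (v n t _ - u t _) i = _
      rw [(h1 n).per t j x, hu.per t j x]
    obtain ⟨C, -, hC⟩ := hp.bounded hc
    exact ⟨hc, C, hC⟩
  have h2n := hr n
  refine besov_le (hχ₁.mono a1) (hψ₂.mono a2) (by linarith : 1 ≤ r) bd fun i => ?_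
  exact (h6 n t ht' i χ ψ (hχ₁.mono a1) (hψ₂.mono a2) h0).exp (by linarith) (by linarith)

/-- The norm of `B⁰_(∞,r)`, `r ≤ 2`, controls the norm of `L²`. -/
lemma l2_of_besov {χ ψ : 𝓢(V, ℝ)} {M : ℝ} (hχ : Ker χ M) (hψ : Ker ψ M) {c : ℝ} (hc0 : 0 < c)
    (hLP' : ∀ k : Fin 3 → ℤ, ∃ Q : ℕ,
      c ≤ ‖ft χ (fun i => (k i : ℝ))‖ ^ 2
        + ∑ q ∈ Finset.range Q, ‖ft ψ (fun i => (1 / 2) ^ q * (k i : ℝ))‖ ^ 2)
    {w : V → V} (hwc : Continuous w) (hwp : Periodic3 w) {r : ℝ} (hr0 : 0 < r) (hr2 : r ≤ 2)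
    {ε : ℝ} (hεpos : 0 < ε) (hε1 : ε ≤ 1) (hcon : besov χ ψ r w < ENNReal.ofReal ε) :
    c * vi * ∫ x in Dom, sq3 (w x) ≤ 3 * ε ^ r := by
  set a : ℝ≥0∞ := ⨆ x, ‖conv χ 1 w x‖ₑ with ha
  set b : ℕ → ℝ≥0∞ := fun q => ⨆ x, ‖conv ψ ((1 / 2) ^ q) w x‖ₑ with hb
  have h1 : a ^ r + ∑' q, b q ^ r < ENNReal.ofReal (ε ^ r) := by
    have h2 : (a ^ r + ∑' q, b q ^ r) ^ (1 / r) < ENNReal.ofReal ε := hcon
    have h3 := ENNReal.rpow_lt_rpow h2 hr0
    rwa [← ENNReal.rpow_mul, one_div_mul_cancel hr0.ne', ENNReal.rpow_one,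
      ENNReal.ofReal_rpow_of_nonneg hεpos.le hr0.le] at h3
  have hle1 : ∀ {s : ℝ≥0∞}, s ^ r ≤ ENNReal.ofReal (ε ^ r) → s ≤ 1 := by
    intro s hs
    have h2 : s ^ r ≤ 1 := by
      refine hs.trans ?_
      rw [← ENNReal.ofReal_one]
      exact ENNReal.ofReal_le_ofReal (Real.rpow_le_one hεpos.le hε1 hr0.le)
    have h3 := ENNReal.rpow_le_rpow h2 (by positivity : 0 ≤ 1 / r)
    rwa [← ENNReal.rpow_mul, mul_one_div_cancel hr0.ne', ENNReal.rpow_one,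
      ENNReal.one_rpow] at h3
  have ha1 : a ≤ 1 := hle1 (le_self_add.trans h1.le)
  have hb1 : ∀ q, b q ≤ 1 := fun q => hle1 (((ENNReal.le_tsum q).trans le_add_self).trans h1.le)
  have hsq : ∀ {s : ℝ≥0∞}, s ≤ 1 → s ^ (2 : ℝ) ≤ s ^ r := fun hs =>
    ENNReal.rpow_le_rpow_of_exponent_ge hs hr2
  set X : ℝ := a.toReal with hX
  set D : ℕ → ℝ := fun q => (b q).toReal with hD
  have hane : a ≠ ⊤ := ne_top_of_le_ne_top ENNReal.one_ne_top ha1
  have hbne : ∀ q, b q ≠ ⊤ := fun q => ne_top_of_le_ne_top ENNReal.one_ne_top (hb1 q)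
  have hS : ∀ Q, X ^ 2 + ∑ q ∈ Finset.range Q, D q ^ 2 ≤ ε ^ r := by
    intro Q
    have e1 : ENNReal.ofReal (X ^ 2 + ∑ q ∈ Finset.range Q, D q ^ 2)
        = a ^ (2 : ℝ) + ∑ q ∈ Finset.range Q, b q ^ (2 : ℝ) := by
      rw [ENNReal.ofReal_add (sq_nonneg _) (Finset.sum_nonneg fun _ _ => sq_nonneg _),
        ENNReal.ofReal_sum_of_nonneg fun _ _ => sq_nonneg _]
      congr 1
      · rw [ENNReal.ofReal_pow ENNReal.toReal_nonneg, ENNReal.ofReal_toReal hane]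
        simp
      · refine Finset.sum_congr rfl fun q _ => ?_
        rw [ENNReal.ofReal_pow ENNReal.toReal_nonneg, ENNReal.ofReal_toReal (hbne q)]
        simp
    have e2 : a ^ (2 : ℝ) + ∑ q ∈ Finset.range Q, b q ^ (2 : ℝ) ≤ ENNReal.ofReal (ε ^ r) := by
      refine le_trans ?_ h1.le
      refine add_le_add (hsq ha1) ?_
      refine le_trans (Finset.sum_le_sum fun q _ => hsq (hb1 q)) (ENNReal.sum_le_tsum _)
    rw [← e1] at e2
    exact (ENNReal.ofReal_le_ofReal_iff (by positivity)).1 e2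
  have hwci : ∀ i, Continuous (fun x => w x i) := fun i => (continuous_apply i).comp hwc
  have hwpi : ∀ i, Periodic3 (fun x => w x i) := fun i => comp_periodic hwp i
  have hwb : ∀ i, Bdc (fun x => w x i) := by
    intro i
    obtain ⟨C, -, hC⟩ := (hwpi i).bounded (hwci i)
    exact ⟨hwci i, C, hC⟩
  have hXi : ∀ i x, |cv χ 1 (fun x => w x i) x| ≤ X := by
    intro i x
    rw [← conv_apply hχ hwb]
    have h2 : ‖conv χ 1 w x‖ₑ ≤ a := le_iSup (fun x => ‖conv χ 1 w x‖ₑ) x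
    have h3 := ENNReal.toReal_mono hane h2
    rw [toReal_enorm] at h3
    exact (norm_le_pi_norm (conv χ 1 w x) i).trans h3
  have hDi : ∀ i q x, |cv ψ ((1 / 2) ^ q) (fun x => w x i) x| ≤ D q := by
    intro i q x
    rw [← conv_apply hψ hwb]
    have h2 : ‖conv ψ ((1 / 2) ^ q) w x‖ₑ ≤ b q :=
      le_iSup (fun x => ‖conv ψ ((1 / 2) ^ q) w x‖ₑ) x
    have h3 := ENNReal.toReal_mono (hbne q) h2
    rw [toReal_enorm] at h3
    exact (norm_le_pi_norm (conv ψ ((1 / 2) ^ q) w x) i).trans h3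
  have hlow : ∀ i, c * (vi * ∫ x in Dom, w x i ^ 2) ≤ ε ^ r := fun i =>
    lower hχ hψ hc0 hLP' (hwci i) (hwpi i) (hXi i) (fun q x => hDi i q x) hS
  have hsum : ∫ x in Dom, sq3 (w x) = ∑ i, ∫ x in Dom, w x i ^ 2 := by
    unfold sq3
    rw [integral_finsetSum]
    intro i _
    have h6 : Periodic3 (fun x => (w x) i ^ 2) := by
      intro j x
      simp only
      rw [hwp j x]
    exact h6.integrableOn ((hwci i).pow 2)
  rw [hsum, Finset.mul_sum]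
  calc ∑ i, c * vi * ∫ x in Dom, w x i ^ 2 ≤ ∑ _i : Fin 3, ε ^ r :=
        Finset.sum_le_sum fun i _ => by rw [mul_assoc]; exact hlow i
    _ = 3 * ε ^ r := by simp

/-- **Failure for `r ≤ 2`**: no sequence of classical solutions passes from near `w(0)` to near
`u₁ ≠ w(t₁)`, if `w` is a classical solution. -/
theorem failure' (χ ψ : 𝓢(V, ℝ)) (hLP : IsLPPair χ ψ) {T : ℝ} {w : ℝ → V → V} {p : ℝ → V → ℝ}
    (hw : IsClassicalSolution (Ico 0 T) w p) {t₁ : ℝ} (ht₁ : t₁ ∈ Ico 0 T) {u₁ : V → V}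
    (hc : Continuous u₁) (hp : Periodic3 u₁) (hne : u₁ ≠ w t₁) {r : ℝ} (hr0 : 0 < r)
    (hr2 : r ≤ 2) :
    ∃ ε : ℝ, 0 < ε ∧ ∀ (v : ℝ → V → V) (q : ℝ → V → ℝ), IsClassicalSolution (Ico 0 T) v q →
      ENNReal.ofReal ε ≤ besov χ ψ r (fun x => v 0 x - w 0 x) ∨
      ENNReal.ofReal ε ≤ besov χ ψ r (fun x => v t₁ x - u₁ x) := by
  obtain ⟨M₁, hM₁, hχ₁⟩ := exists_ker χ
  obtain ⟨M₂, hM₂, hψ₂⟩ := exists_ker ψ
  have hχ : Ker χ (max M₁ M₂) := hχ₁.mono (le_max_left _ _)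
  have hψ : Ker ψ (max M₁ M₂) := hψ₂.mono (le_max_right _ _)
  obtain ⟨-, c, hc0, hLP'⟩ := hLP
  have h0T : (0 : ℝ) ∈ Ico 0 T := ⟨le_rfl, ht₁.1.trans_lt ht₁.2⟩
  obtain ⟨K, hK0, hK⟩ := Pool.Agent.H708R2.EulerTypeI.grad_bound hw ht₁.2
  have hper : ∀ {a b : V → V}, Periodic3 a → Periodic3 b → Periodic3 (fun x => sq3 (a x - b x)) := by
    intro a b ha hb i x
    simp only
    rw [ha i x, hb i x]
  have hcon : ∀ {a b : V → V}, Continuous a → Continuous b →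
      Continuous (fun x => sq3 (a x - b x)) := fun ha hb =>
    (sq3_contDiff (n := 1)).continuous.comp (ha.sub hb)
  have c1 : Continuous (w t₁) := (contDiff_slice hw.contDiffOn_u ht₁).continuous
  have c0 : Continuous (w 0) := (contDiff_slice hw.contDiffOn_u h0T).continuous
  set E₁ := ∫ x in Dom, sq3 (u₁ x - w t₁ x) with hE₁
  have hE₁pos : 0 < E₁ := by
    refine lt_of_le_of_ne (integral_nonneg fun x => sq3_nonneg _) fun h => hne ?_
    have hz := eq_zero_of_integral_eq_zero (hper hp (hw.periodic_u t₁ ht₁))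
      (hcon hc c1) (fun x => sq3_nonneg _) h.symm
    funext x
    exact sub_eq_zero.1 (sq3_eq_zero (hz x))
  set C := Real.exp (6 * K * t₁) with hC
  have hC0 : 0 < C := Real.exp_pos _
  have hvi := vi_pos
  set κ : ℝ := c * vi * E₁ / (12 * (C + 1)) with hκ
  have hκ0 : 0 < κ := by positivity
  set ε : ℝ := min 1 (κ ^ (1 / r)) with hε
  have hεpos : 0 < ε := lt_min one_pos (by positivity)
  have hε1 : ε ≤ 1 := min_le_left _ _
  have hεκ : ε ^ r ≤ κ := by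
    have := Real.rpow_le_rpow hεpos.le (min_le_right 1 (κ ^ (1 / r))) hr0.le
    rwa [← Real.rpow_mul hκ0.le, one_div_mul_cancel hr0.ne', Real.rpow_one] at this
  refine ⟨ε, hεpos, fun v q hv => ?_⟩
  by_contra hcn
  push Not at hcn
  obtain ⟨g0, g1⟩ := hcn
  have cv1 : Continuous (v t₁) := (contDiff_slice hv.contDiffOn_u ht₁).continuous
  have cv0 : Continuous (v 0) := (contDiff_slice hv.contDiffOn_u h0T).continuous
  have pv1 := hv.periodic_u t₁ ht₁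
  have pv0 := hv.periodic_u 0 h0T
  have l0 := l2_of_besov (w := fun x => v 0 x - w 0 x) hχ hψ hc0 hLP' (cv0.sub c0)
    (fun j x => by simp only; rw [pv0 j x, hw.periodic_u 0 h0T j x]) hr0 hr2 hεpos hε1 g0
  have l1 := l2_of_besov (w := fun x => v t₁ x - u₁ x) hχ hψ hc0 hLP' (cv1.sub hc)
    (fun j x => by simp only; rw [pv1 j x, hp j x]) hr0 hr2 hεpos hε1 g1
  have hst : (∫ x in Dom, sq3 (v t₁ x - w t₁ x)) ≤ C * ∫ x in Dom, sq3 (v 0 x - w 0 x) :=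
    en_stab hv hw hK ht₁.1 ht₁.2
  have i1 : IntegrableOn (fun x => sq3 (v t₁ x - w t₁ x)) Dom :=
    (hper pv1 (hw.periodic_u t₁ ht₁)).integrableOn (hcon cv1 c1)
  have i2 : IntegrableOn (fun x => sq3 (v t₁ x - u₁ x)) Dom :=
    (hper pv1 hp).integrableOn (hcon cv1 hc)
  have i3 : IntegrableOn (fun x => sq3 (u₁ x - w t₁ x)) Dom :=
    (hper hp (hw.periodic_u t₁ ht₁)).integrableOn (hcon hc c1)
  have h2 : E₁ ≤ ∫ x in Dom, (2 * sq3 (v t₁ x - w t₁ x) + 2 * sq3 (v t₁ x - u₁ x)) := by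
    refine integral_mono i3 ((i1.const_mul 2).add (i2.const_mul 2)) fun x => ?_
    simp only [sq3, Fin.sum_univ_three, Pi.sub_apply]
    nlinarith [sq_nonneg ((v t₁ x 0 - w t₁ x 0) + (v t₁ x 0 - u₁ x 0)),
      sq_nonneg ((v t₁ x 1 - w t₁ x 1) + (v t₁ x 1 - u₁ x 1)),
      sq_nonneg ((v t₁ x 2 - w t₁ x 2) + (v t₁ x 2 - u₁ x 2))]
  have h3 : ∫ x in Dom, (2 * sq3 (v t₁ x - w t₁ x) + 2 * sq3 (v t₁ x - u₁ x))
      = 2 * (∫ x in Dom, sq3 (v t₁ x - w t₁ x)) + 2 * ∫ x in Dom, sq3 (v t₁ x - u₁ x) := by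
    rw [integral_add (i1.const_mul 2) (i2.const_mul 2), integral_const_mul, integral_const_mul]
  rw [h3] at h2
  set I0 := ∫ x in Dom, sq3 (v 0 x - w 0 x) with hI0
  set I1 := ∫ x in Dom, sq3 (v t₁ x - u₁ x) with hI1
  have hcv : 0 < c * vi := by positivity
  have h5 : c * vi * E₁ ≤ 6 * (C + 1) * ε ^ r := by
    calc c * vi * E₁ ≤ c * vi * (2 * (C * I0) + 2 * I1) := by
          refine mul_le_mul_of_nonneg_left ?_ hcv.le
          linarith
      _ = 2 * C * (c * vi * I0) + 2 * (c * vi * I1) := by ring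
      _ ≤ 2 * C * (3 * ε ^ r) + 2 * (3 * ε ^ r) := by gcongr
      _ = _ := by ring
  have h6 : 6 * (C + 1) * ε ^ r ≤ 6 * (C + 1) * κ := by gcongr
  have h7 : 12 * (C + 1) * κ = c * vi * E₁ := by rw [hκ]; field_simp
  have h8 : 0 < c * vi * E₁ := by positivity
  linarith

end Pool.Agent.K3h70.PP
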