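import Pool.Agent.K3h70.PP.Core

/-!
# The averages of planar solutions over the planes do not depend on time
-/

set_option autoImplicit false

open MeasureTheory Set Filter Topology
open scoped ENNReal ContDiff

namespace Pool.Agent.K3h70.PP

open Pool.Agent.H708R2.EulerSign (V Periodic3 Dom divergence grad sum_mul_clm sum_mul_clm'
  divergence_eq_sum contDiff_slice sq3 sq3_nonneg sq3_eq_zero sq3_contDiff hasFDerivAt_sq3
  quad_bound divergence_smul dom_bdd dom_meas dom_lt_top integral_divergence_eq_zero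
  eq_zero_of_integral_eq_zero continuous_grad IsClassicalSolution)
open Pool.Agent.Y302.Tri (Base lin en dS int_dS en_hasDerivAt en_continuousOn en_nonneg)
open Pool.Agent.K3h70.EB (base_of_classical lin_of_classical)
open Pool.Agent.K3h70.EP
open Pool.Agent.H708R2.EulerModes

variable {T : ℝ} {w u : ℝ → V → V} {q p : ℝ → V → ℝ}

/-- The distance in `L²` does not change if the quadratic form vanishes. -/
lemma rate_zero (hw : IsClassicalSolution (Ico 0 T) w q) (hu : IsClassicalSolution (Ico 0 T) u p)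
    {t : ℝ} (ht : t ∈ Ioo 0 T) (h0 : ∀ x, fderiv ℝ (u t) x (w t x - u t x) = 0) :
    ∫ x in Dom, dS w u t x = 0 := by
  have htI : t ∈ Ico 0 T := ⟨ht.1.le, ht.2⟩
  have hwt : ContDiff ℝ 1 (w t) := contDiff_slice hw.contDiffOn_u htI
  have hut : ContDiff ℝ 1 (u t) := contDiff_slice hu.contDiffOn_u htI
  have hW : ContDiff ℝ 1 (fun y => w t y - u t y) := hwt.sub hut
  have g1 : ContDiff ℝ 1 (fun y => sq3 (w t y - u t y) • w t y) :=
    (sq3_contDiff.comp hW).smul hwt
  have g1p : Periodic3 (fun y => sq3 (w t y - u t y) • w t y) := by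
    intro i x
    simp only
    rw [hw.periodic_u t htI i x, hu.periodic_u t htI i x]
  -- the integrand of `int_dS`
  have key : ∀ x, ∑ i, 2 * ((w t x i - u t x i)
        * (lin (Ico 0 T) w q t i x - lin (Ico 0 T) u p t i x))
      = -divergence (fun y => sq3 (w t y - u t y) • w t y) x := by
    intro x
    have dw : DifferentiableAt ℝ (w t) x := hwt.differentiable one_ne_zero x
    have du : DifferentiableAt ℝ (u t) x := hut.differentiable one_ne_zero x
    have hSd : HasFDerivAt (fun y => sq3 (w t y - u t y))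
        ((∑ i, (2 * (w t x - u t x) i) • (ContinuousLinearMap.proj i : V →L[ℝ] ℝ)) ∘L
          (fderiv ℝ (w t) x - fderiv ℝ (u t) x)) x :=
      HasFDerivAt.comp (g := sq3) (f := fun y => w t y - u t y) x
        (hasFDerivAt_sq3 (w t x - u t x)) (dw.hasFDerivAt.sub du.hasFDerivAt)
    rw [divergence_smul hSd.differentiableAt dw, hSd.fderiv, hw.div_free t htI]
    have hlin : ∀ i, fderiv ℝ (u t) x (w t x) i = fderiv ℝ (u t) x (u t x) i := by
      intro i
      have := congrFun (h0 x) i
      rw [map_sub] at this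
      exact sub_eq_zero.1 this
    simp only [lin_of_classical hw htI, lin_of_classical hu htI, hlin,
      ContinuousLinearMap.comp_apply, sum_apply,
      smul_apply, sub_apply, ContinuousLinearMap.proj_apply,
      Pi.sub_apply, smul_eq_mul, mul_zero, zero_add, ← Finset.sum_neg_distrib]
    refine Finset.sum_congr rfl fun i _ => ?_
    ring
  have hXi : ∀ i, IntegrableOn (fun x => (w t x i - u t x i)
        * (lin (Ico 0 T) w q t i x - lin (Ico 0 T) u p t i x)) Dom := by
    intro i
    have hc : Continuous (fun x => (w t x i - u t x i)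
        * (lin (Ico 0 T) w q t i x - lin (Ico 0 T) u p t i x)) :=
      (((continuous_apply i).comp hwt.continuous).sub
        ((continuous_apply i).comp hut.continuous)).mul
      ((Y302.Tri.lin_continuous (base_of_classical hw) ht i).sub
        (Y302.Tri.lin_continuous (base_of_classical hu) ht i))
    refine Pool.Agent.H708R2.EulerSign.Periodic3.integrableOn ?_ hc
    intro j x
    simp only
    rw [hw.periodic_u t htI j x, hu.periodic_u t htI j x,
      Y302.Tri.lin_periodic (base_of_classical hw) htI i j x,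
      Y302.Tri.lin_periodic (base_of_classical hu) htI i j x]
  rw [int_dS (base_of_classical hw) (base_of_classical hu) ht]
  have e2 : ∑ i, 2 * ∫ x in Dom, (w t x i - u t x i)
      * (lin (Ico 0 T) w q t i x - lin (Ico 0 T) u p t i x)
      = ∫ x in Dom, ∑ i, 2 * ((w t x i - u t x i)
      * (lin (Ico 0 T) w q t i x - lin (Ico 0 T) u p t i x)) := by
    rw [integral_finsetSum _ fun i _ => (hXi i).const_mul 2]
    exact Finset.sum_congr rfl fun i _ => (integral_const_mul _ _).symm
  rw [e2]
  simp_rw [key]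
  rw [integral_neg, integral_divergence_eq_zero g1 g1p, neg_zero]

lemma en_const (hw : IsClassicalSolution (Ico 0 T) w q) (hu : IsClassicalSolution (Ico 0 T) u p)
    (h0 : ∀ t ∈ Ico 0 T, ∀ x, fderiv ℝ (u t) x (w t x - u t x) = 0) {t : ℝ}
    (ht : t ∈ Ico 0 T) : en w u t = en w u 0 := by
  have hcont := en_continuousOn (base_of_classical hw) (base_of_classical hu)
  have hd : ∀ r ∈ Ioo 0 T, HasDerivAt (en w u) 0 r := fun r hr => by
    have := en_hasDerivAt (base_of_classical hw) (base_of_classical hu) hr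
    rwa [rate_zero hw hu hr (h0 r ⟨hr.1.le, hr.2⟩)] at this
  have hz : (0 : ℝ) ∈ Ico 0 T := ⟨le_rfl, ht.1.trans_lt ht.2⟩
  have hanti : AntitoneOn (en w u) (Ico 0 T) := by
    refine antitoneOn_of_deriv_nonpos (convex_Ico _ _) hcont ?_ ?_
    · intro r hr
      rw [interior_Ico] at hr
      exact (hd r hr).differentiableAt.differentiableWithinAt
    · intro r hr
      rw [interior_Ico] at hr
      rw [(hd r hr).deriv]
  have hmono : MonotoneOn (en w u) (Ico 0 T) := by
    refine monotoneOn_of_deriv_nonneg (convex_Ico _ _) hcont ?_ ?_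
    · intro r hr
      rw [interior_Ico] at hr
      exact (hd r hr).differentiableAt.differentiableWithinAt
    · intro r hr
      rw [interior_Ico] at hr
      rw [(hd r hr).deriv]
  exact le_antisymm (hanti hz ht ht.1) (hmono hz ht ht.1)

lemma pw_fderiv (l : Fin 3 → ℤ) (φ : ℝ) (d x y : V) :
    fderiv ℝ (pw l φ d) x y = (-Real.sin (ph l x + φ) * ph l y) • d := by
  have h1 : HasFDerivAt (fun x => ph l x + φ) (phL l) x := by
    have h := ((phL l).hasFDerivAt (x := x)).add_const φ
    simpa only [phL_apply] using h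
  have h2 := ((Real.hasDerivAt_cos (ph l x + φ)).comp_hasFDerivAt x h1).smul_const d
  have h3 : fderiv ℝ (pw l φ d) x = ((-Real.sin (ph l x + φ)) • phL l).smulRight d := h2.fderiv
  rw [h3]
  simp only [ContinuousLinearMap.smulRight_apply, smul_apply, phL_apply, smul_eq_mul]

/-- **Conservation of the averages.** -/
theorem planar_avg (hu : IsClassicalSolution (Ico 0 T) u p) {η : Fin 3 → ℤ}
    (hpl : ∀ t ∈ Ico 0 T, ∀ x, ph η (u t x) = 0) {k : Fin 3 → ℤ}
    (hk : ∀ y, ph η y = 0 → ph k y = 0) (i : Fin 3) {t : ℝ} (ht : t ∈ Ico 0 T) {φ : ℝ}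
    (hφ : φ = 0 ∨ φ = -(Real.pi / 2)) :
    ∫ x in Dom, u t x i * Real.cos (ph k x + φ) = ∫ x in Dom, u 0 x i * Real.cos (ph k x + φ) := by
  have hz : (0 : ℝ) ∈ Ico 0 T := ⟨le_rfl, ht.1.trans_lt ht.2⟩
  set d : V := prj k (Pi.single i 1) with hd
  have hkd : ph k d = 0 := prj_ph k _
  have hkd' : ph k (-d) = 0 := by rw [← neg_one_smul ℝ d, ph_smul, hkd, mul_zero]
  have hE := pw_eul hkd φ
  have hE' := pw_eul hkd' φ
  have hneg : (fun x => -pw k φ d x) = pw k φ (-d) := by
    ext1 x; unfold pw; rw [smul_neg]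
  have hcp : Periodic3 (pw k φ d) := hE.per 0
  have hcc : Continuous (pw k φ d) :=
    (Real.continuous_cos.comp ((ph_contDiff k).continuous.add continuous_const)).smul
      continuous_const
  have gen : ∀ d' : V, ph k d' = 0 → ∀ s ∈ Ico 0 T, ∀ x,
      fderiv ℝ (pw k φ d') x (u s x - pw k φ d' x) = 0 := by
    intro d' hd' s hs x
    rw [pw_fderiv]
    have : ph k (u s x - pw k φ d' x) = 0 := by
      rw [sub_eq_add_neg, ph_add, ← neg_one_smul ℝ (pw k φ d' x), ph_smul, hk _ (hpl s hs x)]
      unfold pw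
      rw [ph_smul, hd']
      ring
    rw [this, mul_zero, zero_smul]
  have e1 := en_const hu (steady_classical (T := T) hE) (gen d hkd) ht
  have e2 := en_const hu (steady_classical (T := T) hE') (gen (-d) hkd') ht
  rw [← coeff_pair hu k i hφ ht, ← coeff_pair hu k i hφ hz, polar hu hcp hcc ht,
    polar hu hcp hcc hz]
  have e2' : en u (fun _ x => -pw k φ d x) t = en u (fun _ x => -pw k φ d x) 0 := by
    rw [hneg]; exact e2
  rw [e1, e2']

/-- The Fourier coefficients at the frequencies parallel to `η` are constant. -/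
theorem avg_coeff (hu : IsClassicalSolution (Ico 0 T) u p) {η : Fin 3 → ℤ}
    (hpl : ∀ t ∈ Ico 0 T, ∀ x, ∑ i, (η i : ℝ) * u t x i = 0) {k : Fin 3 → ℤ}
    (hk : ∃ c : ℝ, ∀ i, (k i : ℝ) = c * η i) (i : Fin 3) {t : ℝ} (ht : t ∈ Ico 0 T) :
    Pool.Agent.K3h70.EB.coeff (fun x => u t x i) k
      = Pool.Agent.K3h70.EB.coeff (fun x => u 0 x i) k := by
  have hz : (0 : ℝ) ∈ Ico 0 T := ⟨le_rfl, ht.1.trans_lt ht.2⟩
  obtain ⟨c, hc⟩ := hk
  have hk' : ∀ y, ph η y = 0 → ph k y = 0 := by
    intro y hy
    have e : ph k y = c * ph η y := by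
      unfold ph
      rw [Finset.mul_sum]
      refine Finset.sum_congr rfl fun j _ => ?_
      rw [hc j]; ring
    rw [e, hy, mul_zero]
  have h1 := planar_avg hu hpl hk' i ht (φ := 0) (Or.inl rfl)
  have h2 := planar_avg hu hpl hk' i ht (φ := -(Real.pi / 2)) (Or.inr rfl)
  simp only [add_zero] at h1
  simp only [← sub_eq_add_neg, Real.cos_sub_pi_div_two] at h2
  have ct : Continuous (u t) := (contDiff_slice hu.contDiffOn_u ht).continuous
  have c0 : Continuous (u 0) := (contDiff_slice hu.contDiffOn_u hz).continuous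
  obtain ⟨a1, a2⟩ := coeff_re_im (hu.periodic_u t ht) ct k i
  obtain ⟨b1, b2⟩ := coeff_re_im (hu.periodic_u 0 hz) c0 k i
  have e1 : cA (u t) k i = cA (u 0) k i := by
    unfold cA
    rw [h1]
  have e2 : cB (u t) k i = cB (u 0) k i := by
    unfold cB
    rw [h2]
  refine Complex.ext ?_ ?_
  · rw [← a1, ← b1, e1]
  · have : -(Pool.Agent.K3h70.EB.coeff (fun x => u t x i) k).im
        = -(Pool.Agent.K3h70.EB.coeff (fun x => u 0 x i) k).im := by rw [← a2, ← b2, e2]
    exact neg_injective this

end Pool.Agent.K3h70.PP
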