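import Pool.Agent.K3h70.EB.Pair

/-!
# Oscillating factors
-/

set_option autoImplicit false

open MeasureTheory Set Filter Topology
open scoped ENNReal ContDiff

namespace Pool.Agent.K3h70.PP

open Pool.Agent.K3h70.EB
open Pool.Agent.H708R2.EulerSign (V Periodic3 Dom dom_lt_top dom_meas)
open Pool.Agent.H708R2.EulerModes (ph ph_add ph_smul ph_contDiff rv ph_single integral_translate)

/-- A lower bound for the iterated averages. -/
theorem ti_lower {σ : ℝ → ℝ} {L c : ℝ} (hL : Lip1 L σ) (hc : 0 ≤ c)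
    (hlow : ∀ y, c * (-1 / 16 + 1 * y ^ 2 + (-1 / 12) * y ^ 4) ≤ σ y + σ (-y)) {n : ℕ}
    (hn : 0 < n) : c * (3 / 16) ≤ Ti (1 / √n) n σ 0 ∧
      Ti (1 / √n) n (fun z => σ (-z)) 0 = Ti (1 / √n) n σ 0 := by
  have hL' : Lip1 L (fun z => σ (-z)) := by
    intro y z
    refine (hL _ _).trans (le_of_eq ?_)
    congr 1
    rw [← abs_neg]
    congr 1
    ring
  have e1 : Ti (1 / √n) n (fun z => σ (-z)) 0 = Ti (1 / √n) n σ 0 := by rw [Ti_neg, neg_zero]
  refine ⟨?_, e1⟩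
  set ε : ℝ := 1 / √n with hε
  have hn' : (0 : ℝ) < n := by exact_mod_cast hn
  have hε2 : ε ^ 2 = 1 / n := by rw [hε, div_pow, one_pow, Real.sq_sqrt hn'.le]
  -- the sum
  have hsum : ∀ (m : ℕ) y, Ti ε m (fun z => σ z + σ (-z)) y
      = Ti ε m σ y + Ti ε m (fun z => σ (-z)) y := by
    intro m
    induction m with
    | zero => intro y; rfl
    | succ m ih =>
      intro y
      rw [Ti_succ, Ti_succ, Ti_succ, ← T_add (Ti_lip hL ε m).continuous (Ti_lip hL' ε m).continuous]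
      congr 1
      funext z
      exact ih z
  have hLs : Lip1 (2 * L) (fun z => σ z + σ (-z)) := by
    intro y z
    have h1 := hL y z
    have h2 := hL' y z
    have e : σ y + σ (-y) - (σ z + σ (-z)) = (σ y - σ z) + (σ (-y) - σ (-z)) := by ring
    simp only [e]
    refine (abs_add_le _ _).trans ?_
    linarith
  have hpoly : ∀ (m : ℕ) ε y, Ti ε m (fun z => c * (-1 / 16 + 1 * z ^ 2 + (-1 / 12) * z ^ 4)) y
      = c * Ti ε m (fun z => -1 / 16 + 1 * z ^ 2 + (-1 / 12) * z ^ 4) y := by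
    intro m ε
    induction m with
    | zero => intro y; rfl
    | succ m ih =>
      intro y
      rw [Ti_succ, Ti_succ, ← T_mul]
      congr 1
      funext z
      exact ih z
  have hcont : ∀ (m : ℕ) ε, Continuous
      (Ti ε m (fun z => c * (-1 / 16 + 1 * z ^ 2 + (-1 / 12) * z ^ 4))) := by
    intro m ε
    have : Ti ε m (fun z => c * (-1 / 16 + 1 * z ^ 2 + (-1 / 12) * z ^ 4))
        = fun y => c * ((-1 / 16 + m * ε ^ 2 / 2 - ε ^ 4 * m * (m - 1) / 16 - m * ε ^ 4 / 32)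
        + (1 - m * ε ^ 2 / 4) * y ^ 2 + (-1 / 12) * y ^ 4) := by
      funext y
      rw [hpoly, Ti_poly]
    rw [this]
    fun_prop
  have h1 := Ti_mono hLs (g' := fun z => c * (-1 / 16 + 1 * z ^ 2 + (-1 / 12) * z ^ 4))
    hcont hlow ε n 0
  rw [hsum, e1, hpoly, Ti_poly] at h1
  have hε4 : ε ^ 4 = 1 / (n : ℝ) ^ 2 := by
    rw [show ε ^ 4 = (ε ^ 2) ^ 2 by ring, hε2]; ring
  rw [hε4, hε2] at h1
  have h2 : (-1 / 16 + (n : ℝ) * (1 / n) / 2 - 1 / (n : ℝ) ^ 2 * n * (n - 1) / 16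
      - n * (1 / (n : ℝ) ^ 2) / 32) + (1 - n * (1 / (n : ℝ)) / 4) * 0 ^ 2 + (-1 / 12) * 0 ^ 4
      = 3 / 8 + 1 / (32 * n) := by
    field_simp
    ring
  rw [h2] at h1
  have h3 : 0 < 1 / (32 * (n : ℝ)) := by positivity
  have h5 : c * (3 / 8) ≤ c * (3 / 8 + 1 / (32 * n)) := by nlinarith
  linarith

/-- the profile of the waves -/
noncomputable def sE (y : ℝ) : ℝ := S (y - 1 / 8)
/-- the profile of the slabs -/
noncomputable def sX (y : ℝ) : ℝ := S (8 * y)

lemma sX_nonneg (y : ℝ) : 0 ≤ sX y := S_nonneg _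

lemma sX_le_one (y : ℝ) : sX y ≤ 1 := S_le_one _

lemma sE_mul (y : ℝ) : sE y * sX y = sE y := by
  rcases le_total y (1 / 8) with h | h
  · have : sE y = 0 := Real.smoothTransition.zero_of_nonpos (by linarith)
    rw [this, zero_mul]
  · have : sX y = 1 := Real.smoothTransition.one_of_one_le (by linarith)
    rw [this, mul_one]

lemma sX_neg (y : ℝ) : sX y = 0 ∨ sX (-y) = 0 := by
  rcases le_total y 0 with h | h
  · left; exact Real.smoothTransition.zero_of_nonpos (by linarith)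
  · right; exact Real.smoothTransition.zero_of_nonpos (by linarith)

lemma low_aux {σ : ℝ → ℝ} (h0 : ∀ y, 0 ≤ σ y) (h1 : ∀ y, 1 / 4 ≤ y → S (1 / 8) ≤ σ y) (y : ℝ) :
    S (1 / 8) / 3 * (-1 / 16 + 1 * y ^ 2 + (-1 / 12) * y ^ 4) ≤ σ y + σ (-y) := by
  have hs : 0 < S (1 / 8) := Real.smoothTransition.pos_of_pos (by norm_num)
  have g1 := h0 y
  have g2 := h0 (-y)
  by_cases hy : |y| ≤ 1 / 4
  · have h3 : y ^ 2 ≤ 1 / 16 := by
      rw [← sq_abs]
      nlinarith [abs_nonneg y]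
    have h4 : -1 / 16 + 1 * y ^ 2 + (-1 / 12) * y ^ 4 ≤ 0 := by nlinarith [sq_nonneg (y ^ 2)]
    nlinarith
  · push Not at hy
    have h3 : S (1 / 8) ≤ σ y + σ (-y) := by
      rcases le_total 0 y with h | h
      · rw [abs_of_nonneg h] at hy
        have := h1 y hy.le
        linarith
      · rw [abs_of_nonpos h] at hy
        have := h1 (-y) hy.le
        linarith
    have h4 : -1 / 16 + 1 * y ^ 2 + (-1 / 12) * y ^ 4 ≤ 3 := by nlinarith [sq_nonneg (y ^ 2 - 6)]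
    nlinarith

/-- The lower bound of the mean values. -/
noncomputable def κs : ℝ := S (1 / 8) / 16

lemma κs_pos : 0 < κs := by
  have : 0 < S (1 / 8) := Real.smoothTransition.pos_of_pos (by norm_num)
  unfold κs
  positivity

lemma κs_le_one : κs ≤ 1 := by
  have := S_le_one (1 / 8)
  unfold κs
  linarith

lemma profiles_lip : ∃ L, 0 ≤ L ∧ Lip1 L sE ∧ Lip1 L sX ∧ Lip1 L (fun y => sE (-y)) ∧
    Lip1 L (fun y => sX (-y)) := by
  obtain ⟨L, hL, h⟩ := S_lip
  have hneg : ∀ {σ : ℝ → ℝ} {L : ℝ}, Lip1 L σ → Lip1 L (fun y => σ (-y)) := by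
    intro σ L hL y z
    refine (hL _ _).trans (le_of_eq ?_)
    congr 1
    rw [← abs_neg]
    congr 1
    ring
  have h1 : Lip1 (8 * L) sE := by
    intro y z
    refine (h _ _).trans ?_
    have : y - 1 / 8 - (z - 1 / 8) = y - z := by ring
    rw [this]
    have := abs_nonneg (y - z)
    nlinarith
  have h2 : Lip1 (8 * L) sX := by
    intro y z
    refine (h _ _).trans (le_of_eq ?_)
    have : 8 * y - 8 * z = 8 * (y - z) := by ring
    rw [this, abs_mul, abs_of_pos (by norm_num : (0 : ℝ) < 8)]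
    ring
  exact ⟨8 * L, by positivity, h1, h2, hneg h1, hneg h2⟩

lemma kappas {n : ℕ} (hn : 0 < n) : κs ≤ Ti (1 / √n) n sE 0 ∧ κs ≤ Ti (1 / √n) n sX 0 ∧
    Ti (1 / √n) n sX 0 ≤ 1 ∧
    Ti (1 / √n) n (fun y => sE (-y)) 0 = Ti (1 / √n) n sE 0 ∧
    Ti (1 / √n) n (fun y => sX (-y)) 0 = Ti (1 / √n) n sX 0 := by
  obtain ⟨L, hL, h1, h2, -, -⟩ := profiles_lip
  have hs : 0 < S (1 / 8) := Real.smoothTransition.pos_of_pos (by norm_num)
  obtain ⟨a1, a2⟩ := ti_lower (c := S (1 / 8) / 3) h1 (by positivity)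
    (low_aux (fun y => S_nonneg _) fun y hy => Real.smoothTransition.monotone (by linarith)) hn
  obtain ⟨b1, b2⟩ := ti_lower (c := S (1 / 8) / 3) h2 (by positivity)
    (low_aux sX_nonneg fun y hy => Real.smoothTransition.monotone (by linarith)) hn
  have e : κs = S (1 / 8) / 3 * (3 / 16) := by unfold κs; ring
  refine ⟨by rw [e]; exact a1, by rw [e]; exact b1, ?_, a2, b2⟩
  exact (le_abs_self _).trans (Ti_abs_le h2 (B := 1) (fun z => by
    rw [abs_of_nonneg (sX_nonneg z)]; exact sX_le_one z) _ _ _)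

/-- The general estimate. -/
theorem osc_main {M : ℝ} (hM : 0 ≤ M)
    {r : ℝ} (hr : 2 < r) {θ : Fin 3 → ℤ} (hθ : θ ≠ 0) {L B Λ : ℝ} (hL : 0 ≤ L) (hB0 : 0 ≤ B)
    (hΛ : 0 ≤ Λ) (n₀ : ℕ) {η : ℝ} (hη : 0 < η) :
    ∃ J l : ℕ, 0 < J ∧ ∀ σ : ℝ → ℝ, Lip1 L σ → ∀ h : V → ℝ, Continuous h →
      (∀ x, |h x| ≤ B) → (∀ x y, |h x - h y| ≤ Λ * ‖x - y‖) → Periodic3 h →
      SmallM M r η (fun x => h x * (σ (Xs (1 / √J) n₀ l J (ph θ x)) - Ti (1 / √J) J σ 0)) := by
  have hr0 : 0 < r := by linarith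
  set C := M * (2 * Real.pi) * C3 L B Λ θ with hC
  have hC3 := C3_nonneg hL hB0 hΛ θ
  have hpi : 0 < 2 * Real.pi := by positivity
  have hC0 : 0 ≤ C := by positivity
  obtain ⟨J, hJ0, hJ⟩ := exists_J ((2 * C) ^ r * 3 ^ r) r (η ^ r / 2) hr (by positivity)
  obtain ⟨l, hl1, hl2, hl3, hl4, hl5⟩ := exists_l ((2 * C) ^ r) (2 * C * J)
    (J * ((volume Dom).toReal * (2 * Real.pi) * C3 L B Λ θ)) (η ^ r / 2) η η
    (by positivity) (by positivity) (by positivity) J n₀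
  set ε : ℝ := 1 / √J with hε
  have hJr : (1 : ℝ) ≤ J := by exact_mod_cast hJ0
  have hε0 : 0 ≤ ε := by positivity
  have hε1 : ε ≤ 1 := by
    rw [hε, div_le_one (by positivity)]
    exact Real.one_le_sqrt.2 hJr
  refine ⟨J, l, hJ0, ?_⟩
  intro σ hσ h hc hB hlip hp χ ψ hχ hψ h0
  set w : V → ℝ := fun x => ∑ b ∈ Finset.range J, pr σ ε J n₀ l θ h b x (Nf n₀ l b * ph θ x)
    with hw
  have hb : ∀ b ∈ Finset.range J,
      Bdc (fun x => pr σ ε J n₀ l θ h b x (Nf n₀ l b * ph θ x)) := fun b hb =>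
    pr_bdc hσ hL hε0 hε1 hl1 hc hB hΛ hlip (Finset.mem_range.1 hb)
  have e : (fun x => h x * (σ (Xs (1 / √J) n₀ l J (ph θ x)) - Ti (1 / √J) J σ 0)) = w := by
    funext x
    rw [hw]
    simp only
    rw [← stage_sum]
  rw [e]
  refine ⟨fun x => ?_, ?_, ?_⟩
  · refine (cv_sum_le hχ (Finset.range J) hb 1 x (β := fun _ => 2 * C * (1 / 2) ^ l)
      fun b hb' => ?_).trans ?_
    · have hP := pr_prof (n₀ := n₀) hσ hL hε0 hε1 hl1 (θ := θ) hc hB hΛ hlip
        (Finset.mem_range.1 hb')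
      have hN := Nf_pos n₀ l b
      refine (cv_low hχ hP hθ hN one_pos x).trans ?_
      have e1 : C3 L B Λ θ * (1 / 2) ^ l * Nf n₀ l b / Nf n₀ l b
          = C3 L B Λ θ * (1 / 2) ^ l := by field_simp
      have e2 : C3 L B Λ θ * ε / (1 * Nf n₀ l b) ≤ C3 L B Λ θ * (1 / 2) ^ l := by
        rw [one_mul, div_le_iff₀ hN]
        have h1 := le_Nf n₀ l b
        have h3 : (1 / 2 : ℝ) ^ l * 2 ^ l = 1 := by rw [← mul_pow]; norm_num
        have h4 : (1 : ℝ) ≤ (1 / 2) ^ l * Nf n₀ l b := by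
          calc (1 : ℝ) = (1 / 2) ^ l * 2 ^ l := h3.symm
            _ ≤ (1 / 2) ^ l * Nf n₀ l b := by gcongr
        calc C3 L B Λ θ * ε ≤ C3 L B Λ θ * ((1 / 2) ^ l * Nf n₀ l b) := by
              gcongr
              exact hε1.trans h4
          _ = C3 L B Λ θ * (1 / 2) ^ l * Nf n₀ l b := by ring
      rw [e1]
      calc M * (2 * Real.pi) * (C3 L B Λ θ * ε / (1 * Nf n₀ l b) + C3 L B Λ θ * (1 / 2) ^ l)
          ≤ M * (2 * Real.pi) * (C3 L B Λ θ * (1 / 2) ^ l + C3 L B Λ θ * (1 / 2) ^ l) := by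
            gcongr
        _ = 2 * C * (1 / 2) ^ l := by rw [hC]; ring
    · rw [Finset.sum_const, Finset.card_range, nsmul_eq_mul]
      calc (J : ℝ) * (2 * C * (1 / 2) ^ l) = 2 * C * J * (1 / 2) ^ l := by ring
        _ ≤ η := hl4
  · obtain ⟨s1, s2⟩ := Dq_sum (n₀ := n₀) hC0 hε0 (by linarith : 1 ≤ r) hl1 hl2
    refine ⟨Dq C ε n₀ l J, fun q => Dq_nonneg hC0 hε0 _ _ _ _, fun q x => ?_, s1, ?_⟩
    · exact cv_sum_le hψ (Finset.range J) hb _ x fun b hb' =>
        stage_bound hψ h0 hσ hL hε0 hε1 hl1 hθ hc hB hΛ hlip (Finset.mem_range.1 hb') q x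
    · refine s2.trans ?_
      have e : (2 * C) ^ r * (3 ^ r * (J * ε ^ r) + (1 / 2) ^ l * (J * (n₀ + l * J + 2)))
          = (2 * C) ^ r * 3 ^ r * (J * ε ^ r)
            + (2 * C) ^ r * ((1 / 2) ^ l * (J * (n₀ + l * J + 2))) := by ring
      rw [e]
      linarith
  · rw [hw, integral_finsetSum]
    · refine (Finset.abs_sum_le_sum_abs _ _).trans ?_
      have h1 : ∀ b ∈ Finset.range J,
          |∫ x in Dom, pr σ ε J n₀ l θ h b x (Nf n₀ l b * ph θ x)|
          ≤ (volume Dom).toReal * (2 * Real.pi) * C3 L B Λ θ * (1 / 2) ^ l := by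
        intro b hb'
        have hP := pr_prof (n₀ := n₀) hσ hL hε0 hε1 hl1 (θ := θ) hc hB hΛ hlip
          (Finset.mem_range.1 hb')
        have hN := Nf_pos n₀ l b
        refine (mean_low hP hθ hN fun t => pr_periodic σ ε J θ hp b t).trans (le_of_eq ?_)
        field_simp
      refine (Finset.sum_le_sum h1).trans ?_
      rw [Finset.sum_const, Finset.card_range, nsmul_eq_mul]
      calc (J : ℝ) * ((volume Dom).toReal * (2 * Real.pi) * C3 L B Λ θ * (1 / 2) ^ l)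
          = J * ((volume Dom).toReal * (2 * Real.pi) * C3 L B Λ θ) * (1 / 2) ^ l := by ring
        _ ≤ η := hl5
    · intro b hb'
      exact (hb b hb').int_dom

/-- The test functions. -/
structure HH (B Λ : ℝ) (h : V → ℝ) : Prop where
  cont : Continuous h
  bdd : ∀ x, |h x| ≤ B
  lip : ∀ x y, |h x - h y| ≤ Λ * ‖x - y‖
  per : Periodic3 h

/-- One pair of complementary factors: `G` for the waves, `H` for the slabs. -/
theorem osc_step {M : ℝ} (hM : 0 ≤ M)
    {r : ℝ} (hr : 2 < r) {θ : Fin 3 → ℤ} (hθ : θ ≠ 0) {B Λ : ℝ} (hB0 : 0 ≤ B)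
    (hΛ : 0 ≤ Λ) (n₀ : ℕ) {η : ℝ} (hη : 0 < η) :
    ∃ (G H : Bool → ℝ → ℝ) (κ : ℝ), (∀ b, ContDiff ℝ ∞ (G b)) ∧ (∀ b, ContDiff ℝ ∞ (H b)) ∧
      (∀ b s, G b s * H b s = G b s) ∧ (∀ s, H true s * H false s = 0) ∧
      (∀ b s (z : ℤ), G b (s + z * (2 * Real.pi / 2 ^ n₀)) = G b s) ∧
      (∀ b s (z : ℤ), H b (s + z * (2 * Real.pi / 2 ^ n₀)) = H b s) ∧
      κs ≤ κ ∧ κ ≤ 1 ∧
      (∀ b h, HH B Λ h → SmallM M r η (fun x => h x * (G b (ph θ x) - 1))) ∧
      (∀ b h, HH B Λ h → SmallM M r η (fun x => h x * (H b (ph θ x) - κ))) := by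
  obtain ⟨L, hL, l1, l2, l3, l4⟩ := profiles_lip
  obtain ⟨J, l, hJ, hmain⟩ := osc_main hM hr hθ hL hB0 hΛ n₀ (η := κs * η)
    (by have := κs_pos; positivity)
  obtain ⟨k1, k2, k3, k4, k5⟩ := kappas hJ
  set ε : ℝ := 1 / √J with hε
  set κE := Ti ε J sE 0 with hκE
  set κX := Ti ε J sX 0 with hκX
  have hκs := κs_pos
  have hκEpos : 0 < κE := hκs.trans_le k1
  have hr0 : 0 ≤ r := by linarith
  refine ⟨fun b s => κE⁻¹ * (if b then sE (Xs ε n₀ l J s) else sE (-Xs ε n₀ l J s)),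
    fun b s => if b then sX (Xs ε n₀ l J s) else sX (-Xs ε n₀ l J s), κX, ?_, ?_, ?_, ?_, ?_, ?_,
    k2, k3, ?_, ?_⟩
  · intro b
    have hS : ContDiff ℝ ∞ sE := Real.smoothTransition.contDiff.comp (contDiff_id.sub contDiff_const)
    cases b
    · simp only [Bool.false_eq_true, if_false]
      exact contDiff_const.mul (hS.comp Xs_contDiff.neg)
    · simp only [if_true]
      exact contDiff_const.mul (hS.comp Xs_contDiff)
  · intro b
    have hS : ContDiff ℝ ∞ sX := Real.smoothTransition.contDiff.comp (contDiff_const.mul contDiff_id)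
    cases b
    · simp only [Bool.false_eq_true, if_false]
      exact hS.comp Xs_contDiff.neg
    · simp only [if_true]
      exact hS.comp Xs_contDiff
  · intro b s
    cases b
    · simp only [Bool.false_eq_true, if_false]
      rw [mul_assoc, sE_mul]
    · simp only [if_true]
      rw [mul_assoc, sE_mul]
  · intro s
    simp only [Bool.false_eq_true, if_false, if_true]
    rcases sX_neg (Xs ε n₀ l J s) with h | h
    · rw [h, zero_mul]
    · rw [h, mul_zero]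
  · intro b s z
    simp only [Xs_periodic]
  · intro b s z
    simp only [Xs_periodic]
  · intro b h hh
    have key : ∀ σ : ℝ → ℝ, Lip1 L σ → Ti ε J σ 0 = κE →
        SmallM M r η (fun x => h x * (κE⁻¹ * σ (Xs ε n₀ l J (ph θ x)) - 1)) := by
      intro σ hσ hσκ
      have h1 := (hmain σ hσ h hh.cont hh.bdd hh.lip hh.per).const_mul κE⁻¹
      rw [hσκ] at h1
      have e : (fun x => h x * (κE⁻¹ * σ (Xs ε n₀ l J (ph θ x)) - 1))
          = fun x => κE⁻¹ * (h x * (σ (Xs ε n₀ l J (ph θ x)) - κE)) := by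
        funext x
        field_simp
      rw [e]
      refine h1.mono hr0 ?_
      rw [abs_of_pos (inv_pos.2 hκEpos)]
      calc κE⁻¹ * (κs * η) ≤ κE⁻¹ * (κE * η) := by gcongr
        _ = η := by field_simp
    cases b
    · simp only [Bool.false_eq_true, if_false]
      exact key (fun y => sE (-y)) l3 k4
    · simp only [if_true]
      exact key sE l1 rfl
  · intro b h hh
    have key : ∀ σ : ℝ → ℝ, Lip1 L σ → Ti ε J σ 0 = κX →
        SmallM M r η (fun x => h x * (σ (Xs ε n₀ l J (ph θ x)) - κX)) := by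
      intro σ hσ hσκ
      have h1 := hmain σ hσ h hh.cont hh.bdd hh.lip hh.per
      rw [hσκ] at h1
      refine h1.mono hr0 ?_
      have := κs_le_one
      nlinarith
    cases b
    · simp only [Bool.false_eq_true, if_false]
      exact key (fun y => sX (-y)) l4 k5
    · simp only [if_true]
      exact key sX l2 rfl

end Pool.Agent.K3h70.PP
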