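import Pool.Agent.K3h70.PP.Build

/-!
# Sums of pencils
-/

set_option autoImplicit false

open MeasureTheory Set Filter Topology
open scoped ENNReal ContDiff

namespace Pool.Agent.K3h70.PP

open Pool.Agent.K3h70.EB Pool.Agent.K3h70.EP
open Pool.Agent.K3h70.EP.TD (ph_single_one ph_symm)
open Pool.Agent.H708R2.EulerSign Pool.Agent.H708R2.EulerModes

/-- a slab without waves -/
def ghost (a : V) : Pen := ⟨∅, fun _ => 0, fun _ => 0, a⟩

lemma ghost_w (a : V) (t : ℝ) (x : V) : (ghost a).w t x = 0 := by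
  simp [Pen.w, ghost]

lemma ghost_ok {η : Fin 3 → ℤ} {K : ℕ} {a : V} (h : ph η a = 0) : (ghost a).Ok η K :=
  ⟨fun k hk => absurd hk (Finset.notMem_empty k), h, fun k hk => absurd hk (Finset.notMem_empty k),
    fun k hk => absurd hk (Finset.notMem_empty k), fun k hk => absurd hk (Finset.notMem_empty k),
    fun k hk => absurd hk (Finset.notMem_empty k)⟩

/-- **Realisation of a sum of pencils.** -/
theorem build {M r : ℝ} (hM : 0 ≤ M) (hr : 2 < r) {η : Fin 3 → ℤ} (hη : η ≠ 0) {K : ℕ}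
    {ι : Type} [Fintype ι] {D : ι → Pen} (hD : ∀ j, (D j).Ok η K) {ε : ℝ} (hε : 0 < ε) :
    ∃ v : ℝ → V → V, Eul v (fun _ => 0) ∧ QP v ∧ (∀ t x, ph η (v t x) = 0) ∧
      (∀ (t : ℝ) (l : Fin 3 → ℤ), (∀ i, |l i| ≤ K) → ∀ i, (∫ x in Dom, v t x i * Real.cos (ph l x)
          = ∫ x in Dom, (∑ j, (D j).w t x) i * Real.cos (ph l x)) ∧
        (∫ x in Dom, v t x i * Real.sin (ph l x)
          = ∫ x in Dom, (∑ j, (D j).w t x) i * Real.sin (ph l x))) ∧
      ∀ t i, SmallM M r ε (fun x => v t x i - (∑ j, (D j).w t x) i) := by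
  classical
  choose C hC0 hC using fun j => pen_hh (D j)
  set B : ℝ := 1 + ∑ j, C j with hB
  have hS0 : 0 ≤ ∑ j, C j := Finset.sum_nonneg fun j _ => hC0 j
  have hCle : ∀ j, C j ≤ B := by
    intro j
    have : C j ≤ ∑ j, C j := Finset.single_le_sum (f := C) (fun j _ => hC0 j) (Finset.mem_univ j)
    linarith
  have hB1 : 1 ≤ B := by linarith
  obtain ⟨n₀, hn₀⟩ : ∃ n₀ : ℕ, 2 * K < 2 ^ n₀ := ⟨2 * K, Nat.lt_two_pow_self⟩
  obtain ⟨x₀, hx₀, hwts⟩ := exists_wts (ι := ι × Bool) hM hr hη hB1 (by linarith : 0 ≤ B) n₀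
  set R : ℝ := ∑ j, ((∑ i, |(D j).a i|) * (1 + 2 / x₀) + 2) + 1 with hR
  have hR0 : 0 < R := by
    have : 0 ≤ ∑ j, ((∑ i, |(D j).a i|) * (1 + 2 / x₀) + 2) :=
      Finset.sum_nonneg fun j _ => by
        have : 0 ≤ ∑ i, |(D j).a i| := Finset.sum_nonneg fun i _ => abs_nonneg _
        positivity
    linarith
  set ε' : ℝ := ε / R with hε'
  have hε'0 : 0 < ε' := by positivity
  obtain ⟨Ψ, X, m, hW⟩ := hwts ε' hε'0
  have hm : ∀ j, 0 < m j := fun j => hx₀.trans_le (hW.lower j)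
  set D' : ι × Bool → Pen := fun p => if p.2 then D p.1
    else ghost (-(m (p.1, true) / m (p.1, false)) • (D p.1).a) with hD'
  have hOk : ∀ p, (D' p).Ok η K := by
    rintro ⟨j, b⟩
    cases b
    · simp only [hD', Bool.false_eq_true, if_false]
      refine ghost_ok ?_
      rw [ph_smul, (hD j).ηa, mul_zero]
    · simp only [hD', if_true]
      exact hD j
  have hDt : ∀ j, D' (j, true) = D j := fun j => by simp [hD']
  have hDf : ∀ j, D' (j, false) = ghost (-(m (j, true) / m (j, false)) • (D j).a) := fun j => by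
    simp [hD']
  have hsum : ∀ t x, ∑ p, (D' p).w t x = ∑ j, (D j).w t x := by
    intro t x
    rw [Fintype.sum_prod_type]
    refine Finset.sum_congr rfl fun j _ => ?_
    rw [Fintype.sum_bool, hDt, hDf, ghost_w, add_zero]
  have hm0 : ∑ p, m p • (D' p).a = 0 := by
    rw [Fintype.sum_prod_type]
    refine Finset.sum_eq_zero fun j _ => ?_
    rw [Fintype.sum_bool, hDt, hDf]
    have h1 := (hm (j, false)).ne'
    show m (j, true) • (D j).a + m (j, false) • (-(m (j, true) / m (j, false)) • (D j).a) = 0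
    rw [smul_smul, ← add_smul]
    have : m (j, true) + m (j, false) * -(m (j, true) / m (j, false)) = 0 := by
      field_simp
      ring
    rw [this, zero_smul]
  have hh : ∀ p t i, HH B B (fun x => (D' p).w t x i) := by
    rintro ⟨j, b⟩ t i
    cases b
    · rw [hDf]
      simp only [ghost_w]
      refine ⟨continuous_const, fun x => ?_, fun x y => ?_, fun _ _ => rfl⟩
      · simp only [Pi.zero_apply, abs_zero]
        linarith
      · simp only [Pi.zero_apply, sub_self, abs_zero]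
        positivity
    · rw [hDt]
      exact (hC j t i).mono (hCle j) (hCle j)
  have hΨp : ∀ p, Periodic3 (fun x => Ψ p (ph η x)) := fun p => (hW.fineE p).per
  have hXp : ∀ p, Periodic3 (fun x => X p (ph η x)) := fun p => hW.perX hx₀ p
  refine ⟨vel η D' Ψ X, vel_eul hOk hW.smoothE hW.smoothX hW.absorb hW.disj hΨp hXp,
    vel_qp hW.smoothE hW.smoothX, fun t x => eta_vel hOk t x, fun t l hl i => ?_, fun t i => ?_⟩
  · have := vel_modes' hOk hn₀ (fun p => (hm p).ne') hW.fineE hW.fineX hm0 t hl i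
    simp only [hsum] at this
    exact this
  · have := vel_small (by linarith : 1 ≤ r) hx₀ hW hh hm0 t i
    simp only [hsum] at this
    refine this.mono (by linarith) ?_
    have h1 : ∑ p, (|(D' p).a i| * ε' + ε') ≤ R * ε' := by
      rw [Fintype.sum_prod_type]
      have h2 : ∀ j, ∑ b, (|(D' (j, b)).a i| * ε' + ε')
          ≤ ((∑ i, |(D j).a i|) * (1 + 2 / x₀) + 2) * ε' := by
        intro j
        rw [Fintype.sum_bool, hDt, hDf]
        show |(D j).a i| * ε' + ε' + (|(-(m (j, true) / m (j, false)) • (D j).a) i| * ε' + ε') ≤ _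
        rw [Pi.smul_apply, smul_eq_mul, abs_mul, abs_neg,
          abs_of_pos (div_pos (hm (j, true)) (hm (j, false)))]
        have h3 : m (j, true) / m (j, false) ≤ 2 / x₀ :=
          div_le_div₀ (by norm_num) (hW.upper _) hx₀ (hW.lower _)
        have h4 : |(D j).a i| ≤ ∑ i, |(D j).a i| :=
          Finset.single_le_sum (f := fun i => |(D j).a i|) (fun _ _ => abs_nonneg _)
            (Finset.mem_univ i)
        have h5 := abs_nonneg ((D j).a i)
        have h6 : 0 < 2 / x₀ := by positivity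
        have h7 : m (j, true) / m (j, false) * |(D j).a i| ≤ 2 / x₀ * ∑ i, |(D j).a i| :=
          mul_le_mul h3 h4 h5 h6.le
        nlinarith
      calc ∑ j, ∑ b, (|(D' (j, b)).a i| * ε' + ε')
          ≤ ∑ j, ((∑ i, |(D j).a i|) * (1 + 2 / x₀) + 2) * ε' :=
            Finset.sum_le_sum fun j _ => h2 j
        _ = (∑ j, ((∑ i, |(D j).a i|) * (1 + 2 / x₀) + 2)) * ε' := by rw [Finset.sum_mul]
        _ ≤ R * ε' := by
            rw [hR]
            nlinarith
    calc _ ≤ R * ε' := h1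
      _ = ε := by rw [hε']; field_simp

/-! ### sums of pencils -/

/-- `U` is a sum of pencils. -/
def Rep (η : Fin 3 → ℤ) (K : ℕ) (U : ℝ → V → V) : Prop :=
  ∃ (ι : Type) (_ : Fintype ι) (D : ι → Pen), (∀ j, (D j).Ok η K) ∧
    ∀ t x, U t x = ∑ j, (D j).w t x

variable {η : Fin 3 → ℤ} {K : ℕ}

lemma Rep.zero : Rep η K (fun _ _ => 0) :=
  ⟨Empty, inferInstance, fun j => j.elim, fun j => j.elim, fun t x => by simp⟩

lemma Rep.add {U W : ℝ → V → V} (hU : Rep η K U) (hW : Rep η K W) :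
    Rep η K (fun t x => U t x + W t x) := by
  obtain ⟨ι, i1, D, hD, h1⟩ := hU
  obtain ⟨κ, i2, E, hE, h2⟩ := hW
  refine ⟨ι ⊕ κ, inferInstance, Sum.elim D E, ?_, fun t x => ?_⟩
  · rintro (j | j)
    · exact hD j
    · exact hE j
  · show U t x + W t x = _
    rw [Fintype.sum_sum_type, h1, h2]
    rfl

lemma Rep.sum {κ : Type} (s : Finset κ) {U : κ → ℝ → V → V} (h : ∀ j ∈ s, Rep η K (U j)) :
    Rep η K (fun t x => ∑ j ∈ s, U j t x) := by
  classical
  induction s using Finset.induction_on with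
  | empty =>
    simp only [Finset.sum_empty]
    exact Rep.zero
  | insert a s ha ih =>
    simp only [Finset.sum_insert ha]
    exact (h a (Finset.mem_insert_self a s)).add
      (ih fun j hj => h j (Finset.mem_insert_of_mem hj))

lemma Rep.single {D : Pen} (h : D.Ok η K) : Rep η K (fun t x => D.w t x) :=
  ⟨Unit, inferInstance, fun _ => D, fun _ => h, fun t x => by simp⟩

lemma Rep.congr {U W : ℝ → V → V} (hU : Rep η K U) (h : ∀ t x, W t x = U t x) : Rep η K W := by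
  obtain ⟨ι, i1, D, hD, h1⟩ := hU
  exact ⟨ι, i1, D, hD, fun t x => (h t x).trans (h1 t x)⟩

/-- the triple product -/
lemma ph_cr_cr (l m : Fin 3 → ℤ) : ph l (rv (cr m (cr l m))) = ph (cr l m) (rv (cr l m)) := by
  unfold ph rv cr
  simp only [Fin.sum_univ_three, Matrix.cons_val_zero, Matrix.cons_val_one, Matrix.cons_val]
  push_cast
  ring

/-- a travelling wave -/
lemma rep_trav {l : Fin 3 → ℤ} (hl : ∀ i, |l i| ≤ K) (hlη : cr l η ≠ 0) (μ Ω φ : ℝ) :
    Rep η K (fun t x => (μ * Real.cos (ph l x - Ω * t + φ)) • rv (cr l η)) := by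
  have hc : ph (cr l η) (rv (cr l η)) ≠ 0 := by linarith [one_le_norm hlη]
  set N := ph (cr l η) (rv (cr l η)) with hN
  have ho : ph η (rv (cr l η)) = 0 := by rw [ph_symm]; exact ph_cr_right l η
  let D : Pen := ⟨{l}, fun _ => (μ * Real.cos φ) • rv (cr l η),
    fun _ => (-(μ * Real.sin φ)) • rv (cr l η), (Ω / N) • rv (cr η (cr l η))⟩
  have hD : D.Ok η K := by
    refine ⟨fun k hk => ?_, ?_, fun k _ => ?_, fun k _ => ?_, fun k hk q _ => ?_,
      fun k hk q _ => ?_⟩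
    · rw [Finset.mem_singleton.1 hk]
      exact hl
    · show ph η ((Ω / N) • rv (cr η (cr l η))) = 0
      rw [ph_smul, ph_cr_left, mul_zero]
    · show ph η ((μ * Real.cos φ) • rv (cr l η)) = 0
      rw [ph_smul, ho, mul_zero]
    · show ph η ((-(μ * Real.sin φ)) • rv (cr l η)) = 0
      rw [ph_smul, ho, mul_zero]
    · rw [Finset.mem_singleton.1 hk]
      show ph l ((μ * Real.cos φ) • rv (cr l η)) = 0
      rw [ph_smul, ph_cr_left, mul_zero]
    · rw [Finset.mem_singleton.1 hk]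
      show ph l ((-(μ * Real.sin φ)) • rv (cr l η)) = 0
      rw [ph_smul, ph_cr_left, mul_zero]
  refine (Rep.single hD).congr fun t x => ?_
  have e : ph l D.a = Ω := by
    show ph l ((Ω / N) • rv (cr η (cr l η))) = Ω
    rw [ph_smul, ph_cr_cr]
    exact div_mul_cancel₀ Ω hc
  show _ = ∑ k ∈ ({l} : Finset (Fin 3 → ℤ)), (Real.cos (ph k x - t * ph k D.a) •
      ((μ * Real.cos φ) • rv (cr l η))
    + Real.sin (ph k x - t * ph k D.a) • ((-(μ * Real.sin φ)) • rv (cr l η)))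
  rw [Finset.sum_singleton, e, Real.cos_add, mul_comm Ω t, smul_smul, smul_smul, ← add_smul]
  congr 1
  ring

lemma rep_prod {l : Fin 3 → ℤ} (hl : ∀ i, |l i| ≤ K) (hlη : cr l η ≠ 0) (μ Ω ψ φ : ℝ) :
    Rep η K (fun t x => (μ * Real.cos (Ω * t + ψ) * Real.cos (ph l x + φ)) • rv (cr l η)) := by
  refine ((rep_trav hl hlη (μ / 2) Ω (φ - ψ)).add (rep_trav hl hlη (μ / 2) (-Ω) (φ + ψ))).congr
    fun t x => ?_
  rw [← add_smul]
  congr 1
  have e1 : ph l x - Ω * t + (φ - ψ) = (ph l x + φ) - (Ω * t + ψ) := by ring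
  have e2 : ph l x - -Ω * t + (φ + ψ) = (ph l x + φ) + (Ω * t + ψ) := by ring
  rw [e1, e2, Real.cos_sub (ph l x + φ), Real.cos_add (ph l x + φ)]
  ring

lemma rep_mode {l : Fin 3 → ℤ} (hl : ∀ i, |l i| ≤ K) (hlη : cr l η ≠ 0) {f : ℝ → ℝ}
    (hf : TrigPoly f) (φ : ℝ) :
    Rep η K (fun t x => (f t * Real.cos (ph l x + φ)) • rv (cr l η)) := by
  obtain ⟨n, w, a, b, h2⟩ := hf
  have h3 : Rep η K (fun t x => ∑ j, ((a j * Real.cos (w j * t + 0) * Real.cos (ph l x + φ))
      • rv (cr l η) + (b j * Real.cos (w j * t + -(Real.pi / 2)) * Real.cos (ph l x + φ))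
      • rv (cr l η))) :=
    Rep.sum _ fun j _ => (rep_prod hl hlη _ _ _ _).add (rep_prod hl hlη _ _ _ _)
  refine h3.congr fun t x => ?_
  rw [h2, Finset.sum_mul, Finset.sum_smul]
  refine Finset.sum_congr rfl fun j _ => ?_
  rw [← add_smul]
  congr 1
  rw [add_zero, ← sub_eq_add_neg, Real.cos_sub_pi_div_two]
  ring

/-- a frequency parallel to `η` -/
lemma par_ph {k : Fin 3 → ℤ} (hη : η ≠ 0) (hk : cr k η = 0) {y : V} (hy : ph η y = 0) :
    ph k y = 0 := by
  have hn : ph η (rv η) ≠ 0 := by linarith [one_le_norm hη]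
  have h0 := congrFun hk 0
  have h1 := congrFun hk 1
  have h2 := congrFun hk 2
  unfold cr at h0 h1 h2
  simp only [Matrix.cons_val_zero, Matrix.cons_val_one, Matrix.cons_val, Pi.zero_apply] at h0 h1 h2
  have g0 : (k 1 : ℝ) * η 2 - k 2 * η 1 = 0 := by exact_mod_cast h0
  have g1 : (k 2 : ℝ) * η 0 - k 0 * η 2 = 0 := by exact_mod_cast h1
  have g2 : (k 0 : ℝ) * η 1 - k 1 * η 0 = 0 := by exact_mod_cast h2
  have e : ph η (rv η) * ph k y = ph k (rv η) * ph η y := by
    unfold ph rv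
    simp only [Fin.sum_univ_three]
    linear_combination ((y 2 * (η 1 : ℝ) - y 1 * η 2)) * g0 * (-1) + (y 0 * (η 2 : ℝ) - y 2 * η 0) * g1 * (-1)
      + (y 1 * (η 0 : ℝ) - y 0 * η 1) * g2 * (-1)
  rw [hy, mul_zero] at e
  exact (mul_eq_zero.1 e).resolve_left hn

/-- the stationary part -/
lemma rep_static (hη : η ≠ 0) {F : Finset (Fin 3 → ℤ)} (hF : ∀ k ∈ F, ∀ i, |k i| ≤ K)
    (hFη : ∀ k ∈ F, cr k η = 0) {A B : (Fin 3 → ℤ) → V} (hA : ∀ k ∈ F, ph η (A k) = 0)
    (hB : ∀ k ∈ F, ph η (B k) = 0) :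
    Rep η K (fun _ x => ∑ k ∈ F, (Real.cos (ph k x) • A k + Real.sin (ph k x) • B k)) := by
  let D : Pen := ⟨F, A, B, 0⟩
  have hz : ∀ k, ph k (0 : V) = 0 := fun k => by simp [ph]
  have hD : D.Ok η K := ⟨hF, hz η, hA, hB, fun k hk l hl => par_ph hη (hFη k hk) (hA l hl),
    fun k hk l hl => par_ph hη (hFη k hk) (hB l hl)⟩
  refine (Rep.single hD).congr fun t x => ?_
  show _ = ∑ k ∈ F, (Real.cos (ph k x - t * ph k (0 : V)) • A k
    + Real.sin (ph k x - t * ph k (0 : V)) • B k)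
  simp only [hz, mul_zero, sub_zero]

/-- **All planar paths of trigonometric fields are sums of pencils.** -/
theorem rep_tf (hη : η ≠ 0) {A B : ℝ → (Fin 3 → ℤ) → V} {f g : (Fin 3 → ℤ) → ℝ → ℝ}
    (hf : ∀ k ∈ Bx K, cr k η ≠ 0 → TrigPoly (f k)) (hg : ∀ k ∈ Bx K, cr k η ≠ 0 → TrigPoly (g k))
    (hA : ∀ k ∈ Bx K, cr k η ≠ 0 → ∀ t, A t k = f k t • rv (cr k η))
    (hB : ∀ k ∈ Bx K, cr k η ≠ 0 → ∀ t, B t k = g k t • rv (cr k η))
    (hA0 : ∀ k ∈ Bx K, cr k η = 0 → ph η (A 0 k) = 0 ∧ ∀ t, A t k = A 0 k)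
    (hB0 : ∀ k ∈ Bx K, cr k η = 0 → ph η (B 0 k) = 0 ∧ ∀ t, B t k = B 0 k) :
    Rep η K (fun t x => tf K (A t) (B t) x) := by
  classical
  have h1 : Rep η K (fun t x => ∑ k ∈ (Bx K).filter (fun k => ¬ cr k η = 0),
      ((f k t * Real.cos (ph k x + 0)) • rv (cr k η)
        + (g k t * Real.cos (ph k x + -(Real.pi / 2))) • rv (cr k η))) := by
    refine Rep.sum _ fun k hk => ?_
    obtain ⟨hk1, hk2⟩ := Finset.mem_filter.1 hk
    exact (rep_mode (mem_Bx.1 hk1) hk2 (hf k hk1 hk2) _).add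
      (rep_mode (mem_Bx.1 hk1) hk2 (hg k hk1 hk2) _)
  have h2 : Rep η K (fun _ x => ∑ k ∈ (Bx K).filter (fun k => cr k η = 0),
      (Real.cos (ph k x) • A 0 k + Real.sin (ph k x) • B 0 k)) :=
    rep_static hη (fun k hk => mem_Bx.1 (Finset.mem_filter.1 hk).1)
      (fun k hk => (Finset.mem_filter.1 hk).2)
      (fun k hk => (hA0 k (Finset.mem_filter.1 hk).1 (Finset.mem_filter.1 hk).2).1)
      (fun k hk => (hB0 k (Finset.mem_filter.1 hk).1 (Finset.mem_filter.1 hk).2).1)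
  refine (h2.add h1).congr fun t x => ?_
  unfold tf
  rw [← Finset.sum_filter_add_sum_filter_not (Bx K) (fun k => cr k η = 0)]
  congr 1
  · refine Finset.sum_congr rfl fun k hk => ?_
    obtain ⟨hk1, hk2⟩ := Finset.mem_filter.1 hk
    rw [(hA0 k hk1 hk2).2 t, (hB0 k hk1 hk2).2 t]
  · refine Finset.sum_congr rfl fun k hk => ?_
    obtain ⟨hk1, hk2⟩ := Finset.mem_filter.1 hk
    rw [hA k hk1 hk2 t, hB k hk1 hk2 t, add_zero, ← sub_eq_add_neg, Real.cos_sub_pi_div_two,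
      smul_smul, smul_smul, mul_comm (f k t), mul_comm (g k t)]

end Pool.Agent.K3h70.PP
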