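import Pool.Agent.K3h70.PP.Osc
import Pool.Agent.K3h70.EB.Family

/-!
# Families of parallel slabs
-/

set_option autoImplicit false

open MeasureTheory Set Filter Topology
open scoped ENNReal ContDiff

namespace Pool.Agent.K3h70.PP

open Pool.Agent.K3h70.EB
open Pool.Agent.H708R2.EulerSign
open Pool.Agent.H708R2.EulerModes

lemma HH.mono {B Λ B' Λ' : ℝ} {h : V → ℝ} (hh : HH B Λ h) (hB : B ≤ B') (hΛ : Λ ≤ Λ') :
    HH B' Λ' h :=
  ⟨hh.cont, fun x => (hh.bdd x).trans hB, fun x y => (hh.lip x y).trans (by gcongr), hh.per⟩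

lemma HH.mul {B Λ B' Λ' : ℝ} {h g : V → ℝ} (hh : HH B Λ h) (hg : HH B' Λ' g) (hB : 0 ≤ B)
    (hΛ : 0 ≤ Λ) : HH (B * B') (B * Λ' + Λ * B') (fun x => h x * g x) := by
  refine ⟨hh.cont.mul hg.cont, fun x => ?_, fun x y => ?_, fun i x => ?_⟩
  · rw [abs_mul]
    exact mul_le_mul (hh.bdd x) (hg.bdd x) (abs_nonneg _) hB
  · have e : h x * g x - h y * g y = h x * (g x - g y) + (h x - h y) * g y := by ring
    rw [e]
    refine (abs_add_le _ _).trans ?_
    rw [abs_mul, abs_mul]
    have h1 : |h x| * |g x - g y| ≤ B * (Λ' * ‖x - y‖) :=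
      mul_le_mul (hh.bdd x) (hg.lip x y) (abs_nonneg _) hB
    have h2 : |h x - h y| * |g y| ≤ (Λ * ‖x - y‖) * B' :=
      mul_le_mul (hh.lip x y) (hg.bdd y) (abs_nonneg _) (by positivity)
    linarith
  · show h _ * g _ = _
    rw [hh.per i x, hg.per i x]

lemma HH.bdc {B Λ : ℝ} {h : V → ℝ} (hh : HH B Λ h) : Bdc h := ⟨hh.cont, B, hh.bdd⟩

lemma HH.of_smooth {f : V → ℝ} (hf : ContDiff ℝ 1 f) (hp : Periodic3 f) :
    ∃ C, 0 ≤ C ∧ HH C C f := by
  obtain ⟨C, hC, h1, h2⟩ := bounds_of_periodic hf hp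
  exact ⟨C, hC, hf.continuous, h1, h2, hp⟩

/-- A function of `θ · x`. -/
lemma comp_per {θ : Fin 3 → ℤ} {n₀ : ℕ} {G : ℝ → ℝ}
    (hG : ∀ s (z : ℤ), G (s + z * (2 * Real.pi / 2 ^ n₀)) = G s) :
    Periodic3 (fun x => G (ph θ x)) ∧
    ∀ (i : Fin 3) (x : V), G (ph θ (x + Pi.single i (2 * Real.pi / 2 ^ n₀))) = G (ph θ x) := by
  constructor
  · intro i x
    simp only
    rw [ph_add, ph_single]
    have : (θ i : ℝ) * (2 * Real.pi) = ((θ i * 2 ^ n₀ : ℤ) : ℝ) * (2 * Real.pi / 2 ^ n₀) := by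
      push_cast
      field_simp
    rw [this, hG]
  · intro i x
    rw [ph_add, ph_single, hG]

/-- Families of slabs. -/
structure Slabs {ι : Type} (M r : ℝ) (θ : Fin 3 → ℤ) (n₀ : ℕ) (B Λ : ℝ) (k : ℕ)
    (code : ι → ℕ → Bool) (η : ℝ) (E X : ι → ℝ → ℝ) (κ : ℝ) : Prop where
  smoothE : ∀ j, ContDiff ℝ ∞ (E j)
  smoothX : ∀ j, ContDiff ℝ ∞ (X j)
  absorb : ∀ j s, E j s * X j s = E j s
  disj : ∀ i j, (∃ b < k, code i b ≠ code j b) → ∀ s, X i s * X j s = 0
  perE : ∀ j s (z : ℤ), E j (s + z * (2 * Real.pi / 2 ^ n₀)) = E j s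
  perX : ∀ j s (z : ℤ), X j (s + z * (2 * Real.pi / 2 ^ n₀)) = X j s
  lower : κs ^ k ≤ κ
  upper : κ ≤ 1
  small : ∀ j h, HH B Λ h → SmallM M r η (fun x => h x * (E j (ph θ x) - 1))
  smallX : ∀ j, SmallM M r η (fun x => X j (ph θ x) - κ)

theorem exists_slabs {ι : Type} [Fintype ι] [DecidableEq ι] {M r : ℝ} (hM : 0 ≤ M) (hr : 2 < r)
    {θ : Fin 3 → ℤ} (hθ : θ ≠ 0) {B Λ : ℝ} (hB : 0 ≤ B) (hΛ : 0 ≤ Λ) (n₀ : ℕ)
    (code : ι → ℕ → Bool) (k : ℕ) :
    ∀ η : ℝ, 0 < η → ∃ (E X : ι → ℝ → ℝ) (κ : ℝ), Slabs M r θ n₀ B Λ k code η E X κ := by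
  have hr0 : 0 ≤ r := by linarith
  have hr1 : 1 ≤ r := by linarith
  induction k with
  | zero =>
    intro η hη
    refine ⟨fun _ _ => 1, fun _ _ => 1, 1, fun _ => contDiff_const, fun _ => contDiff_const,
      fun _ _ => by ring, fun i j h => ?_, fun _ _ _ => rfl, fun _ _ _ => rfl, by simp, le_rfl,
      fun j h _ => ?_, fun j => ?_⟩
    · obtain ⟨b, hb, -⟩ := h
      exact absurd hb (Nat.not_lt_zero b)
    · simp only [sub_self, mul_zero]
      exact (SmallM.zero (by linarith)).mono hr0 hη.le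
    · simp only [sub_self]
      exact (SmallM.zero (by linarith)).mono hr0 hη.le
  | succ k ih =>
    intro η hη
    obtain ⟨E, X, κ, hS⟩ := ih (η / 2) (by positivity)
    have hphs : ContDiff ℝ ∞ (ph θ) := ph_contDiff θ
    have hEs : ∀ i, ContDiff ℝ 1 (fun x => E i (ph θ x)) := fun i =>
      ((hS.smoothE i).comp hphs).of_le (by exact_mod_cast le_top)
    have hXs : ∀ i, ContDiff ℝ 1 (fun x => X i (ph θ x)) := fun i =>
      ((hS.smoothX i).comp hphs).of_le (by exact_mod_cast le_top)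
    have hEp := fun i => (comp_per (θ := θ) (hS.perE i)).1
    have hXp := fun i => (comp_per (θ := θ) (hS.perX i)).1
    obtain ⟨C₁, hC₁, b1, l1⟩ := common_bounds hEs hEp
    obtain ⟨C₂, hC₂, b2, l2⟩ := common_bounds hXs hXp
    set B' : ℝ := B * C₁ + C₂ with hB'
    set Λ' : ℝ := (B * C₁ + Λ * C₁) + C₂ with hΛ'
    have hB'0 : 0 ≤ B' := by positivity
    have hΛ'0 : 0 ≤ Λ' := by positivity
    obtain ⟨G, H, κ', g1, g2, g3, g4, g5, g6, g7, g8, g9, g10⟩ := osc_step hM hr hθ hB'0 hΛ'0 n₀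
      (η := η / 2) (by positivity)
    have hκs := κs_pos
    have hκ0 : 0 ≤ κ := (pow_pos hκs k).le.trans hS.lower
    have hκ'0 : 0 ≤ κ' := hκs.le.trans g7
    have hhE : ∀ j, HH C₁ C₁ (fun x => E j (ph θ x)) := fun j =>
      ⟨(hEs j).continuous, b1 j, l1 j, hEp j⟩
    have hhX : ∀ j, HH C₂ C₂ (fun x => X j (ph θ x)) := fun j =>
      ⟨(hXs j).continuous, b2 j, l2 j, hXp j⟩
    have bdG : ∀ b, Bdc (fun x => G b (ph θ x)) := fun b => by
      obtain ⟨C, -, hC⟩ := HH.of_smooth (f := fun x => G b (ph θ x))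
        (((g1 b).comp hphs).of_le (by exact_mod_cast le_top)) (comp_per (g5 b)).1
      exact hC.bdc
    have bdH : ∀ b, Bdc (fun x => H b (ph θ x)) := fun b => by
      obtain ⟨C, -, hC⟩ := HH.of_smooth (f := fun x => H b (ph θ x))
        (((g2 b).comp hphs).of_le (by exact_mod_cast le_top)) (comp_per (g6 b)).1
      exact hC.bdc
    have bmul : ∀ {f g : V → ℝ}, Bdc f → Bdc g → Bdc (fun x => f x * g x) := by
      rintro f g ⟨hf, Bf, hBf⟩ ⟨hg, Bg, hBg⟩
      exact ⟨hf.mul hg, Bf * Bg, fun x => by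
        rw [abs_mul]
        exact mul_le_mul (hBf x) (hBg x) (abs_nonneg _) ((abs_nonneg _).trans (hBf x))⟩
    have bsub : ∀ {f : V → ℝ} (c : ℝ), Bdc f → Bdc (fun x => f x - c) := by
      rintro f c ⟨hf, Bf, hBf⟩
      exact ⟨hf.sub continuous_const, Bf + |c|, fun x =>
        (abs_sub _ _).trans (add_le_add (hBf x) le_rfl)⟩
    have bconst : ∀ c : ℝ, Bdc (fun _ : V => c) := fun c => ⟨continuous_const, |c|, fun _ => le_rfl⟩
    refine ⟨fun j s => E j s * G (code j k) s, fun j s => X j s * H (code j k) s, κ * κ',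
      fun j => (hS.smoothE j).mul (g1 _), fun j => (hS.smoothX j).mul (g2 _), fun j s => ?_,
      fun i j h s => ?_, fun j s z => ?_, fun j s z => ?_, ?_, ?_, fun j h hh => ?_, fun j => ?_⟩
    · calc E j s * G (code j k) s * (X j s * H (code j k) s)
          = (E j s * X j s) * (G (code j k) s * H (code j k) s) := by ring
        _ = E j s * G (code j k) s := by rw [hS.absorb, g3]
    · obtain ⟨b, hb, hne⟩ := h
      rcases Nat.lt_succ_iff_lt_or_eq.1 hb with hb' | rfl
      · calc X i s * H (code i k) s * (X j s * H (code j k) s)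
            = (X i s * X j s) * (H (code i k) s * H (code j k) s) := by ring
          _ = 0 := by rw [hS.disj i j ⟨b, hb', hne⟩ s, zero_mul]
      · have : H (code i b) s * H (code j b) s = 0 := by
          rcases Bool.eq_false_or_eq_true (code i b) with h1 | h1 <;>
            rcases Bool.eq_false_or_eq_true (code j b) with h2 | h2
          · rw [h1, h2] at hne; exact absurd rfl hne
          · rw [h1, h2]; exact g4 s
          · rw [h1, h2, mul_comm]; exact g4 s
          · rw [h1, h2] at hne; exact absurd rfl hne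
        calc X i s * H (code i b) s * (X j s * H (code j b) s)
            = (X i s * X j s) * (H (code i b) s * H (code j b) s) := by ring
          _ = 0 := by rw [this, mul_zero]
    · simp only [hS.perE, g5]
    · simp only [hS.perX, g6]
    · rw [pow_succ]
      exact mul_le_mul hS.lower g7 hκs.le hκ0
    · exact mul_le_one₀ hS.upper hκ'0 g8
    · have e : (fun x => h x * (E j (ph θ x) * G (code j k) (ph θ x) - 1))
          = fun x => h x * (E j (ph θ x) - 1)
            + (h x * E j (ph θ x)) * (G (code j k) (ph θ x) - 1) := by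
        funext x; ring
      rw [e]
      have s1 := hS.small j h hh
      have s2 := g9 (code j k) (fun x => h x * E j (ph θ x))
        ((hh.mul (hhE j) hB hΛ).mono (by rw [hB']; linarith) (by rw [hΛ']; linarith))
      have := SmallM.add hr1 (bmul hh.bdc (bsub 1 (hhE j).bdc))
        (bmul (bmul hh.bdc (hhE j).bdc) (bsub 1 (bdG _))) s1 s2
      rwa [add_halves] at this
    · have e : (fun x => X j (ph θ x) * H (code j k) (ph θ x) - κ * κ')
          = fun x => κ' * (X j (ph θ x) - κ)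
            + X j (ph θ x) * (H (code j k) (ph θ x) - κ') := by
        funext x; ring
      rw [e]
      have s1 := (hS.smallX j).const_mul κ'
      have s2 := g10 (code j k) (fun x => X j (ph θ x))
        ((hhX j).mono (by
          have : 0 ≤ B * C₁ := by positivity
          rw [hB']; linarith) (by
          have : 0 ≤ B * C₁ + Λ * C₁ := by positivity
          rw [hΛ']; linarith))
      have := SmallM.add hr1 (bmul (bconst κ') (bsub κ (hhX j).bdc))
        (bmul (hhX j).bdc (bsub κ' (bdH _))) s1 s2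
      refine this.mono hr0 ?_
      rw [abs_of_nonneg hκ'0]
      nlinarith

/-- The weights of the flows. -/
structure Wts {ι : Type} (M r : ℝ) (θ : Fin 3 → ℤ) (n₀ : ℕ) (B Λ x₀ : ℝ) (η : ℝ)
    (Ψ X : ι → ℝ → ℝ) (m : ι → ℝ) : Prop where
  smoothE : ∀ j, ContDiff ℝ ∞ (Ψ j)
  smoothX : ∀ j, ContDiff ℝ ∞ (X j)
  absorb : ∀ j s, Ψ j s * X j s = Ψ j s
  disj : ∀ i j, i ≠ j → ∀ s, X i s * X j s = 0
  fineE : ∀ j, Fine (2 ^ n₀) (fun x => Ψ j (ph θ x))
  fineX : ∀ j, Fine (2 ^ n₀) (fun x => (m j)⁻¹ * X j (ph θ x))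
  lower : ∀ j, x₀ ≤ m j
  upper : ∀ j, m j ≤ 2
  small : ∀ j h, HH B Λ h → SmallM M r η (fun x => h x * (Ψ j (ph θ x) - 1))
  smallX : ∀ j, SmallM M r η (fun x => X j (ph θ x) - m j)

theorem exists_wts {ι : Type} [Fintype ι] [DecidableEq ι] {M r : ℝ} (hM : 0 ≤ M) (hr : 2 < r)
    {θ : Fin 3 → ℤ} (hθ : θ ≠ 0) {B Λ : ℝ} (hB : 1 ≤ B) (hΛ : 0 ≤ Λ) (n₀ : ℕ) :
    ∃ x₀ : ℝ, 0 < x₀ ∧ ∀ η : ℝ, 0 < η → ∃ (Ψ X : ι → ℝ → ℝ) (m : ι → ℝ),
      Wts M r θ n₀ B Λ x₀ η Ψ X m := by
  classical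
  have hr0 : 0 ≤ r := by linarith
  have hr1 : 1 ≤ r := by linarith
  have hB0 : 0 ≤ B := by linarith
  obtain ⟨k, ⟨e⟩⟩ : ∃ k, Nonempty (ι ≃ Fin k) := ⟨_, ⟨Fintype.equivFin ι⟩⟩
  set code : ι → ℕ → Bool := fun j b => decide ((e j : ℕ) = b) with hcode
  have hcode' : ∀ i j, i ≠ j → ∃ b < k, code i b ≠ code j b := by
    intro i j hij
    refine ⟨e i, (e i).2, ?_⟩
    have h1 : code i (e i) = true := by simp [hcode]
    have h2 : code j (e i) = false := by
      simp only [hcode, decide_eq_false_iff_not]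
      intro h
      exact hij (e.injective (Fin.ext h)).symm
    rw [h1, h2]
    exact Bool.noConfusion
  have hκs := κs_pos
  set κ₁ : ℝ := κs ^ k with hκ₁
  have hκ₁0 : 0 < κ₁ := pow_pos hκs k
  have hκ₁1 : κ₁ ≤ 1 := pow_le_one₀ hκs.le κs_le_one
  set vol : ℝ := (volume Dom).toReal with hvol
  have hvol0 : 0 < vol := vol_pos
  set D : ℝ := 2 + 2 * vol⁻¹ * ((M + vol) * B + 2 * (M * Λ)) + (1 + (M + vol) / vol) with hD
  have hD0 : 0 < D := by positivity
  refine ⟨κ₁ / 2, by positivity, fun η hη => ?_⟩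
  set η' : ℝ := min (κ₁ * vol / 2) (η / D) with hη'
  have hη'0 : 0 < η' := lt_min (by positivity) (by positivity)
  have hη'1 : η' ≤ κ₁ * vol / 2 := min_le_left _ _
  have hη'2 : D * η' ≤ η := by
    calc D * η' ≤ D * (η / D) := by gcongr; exact min_le_right _ _
      _ = η := by field_simp
  obtain ⟨E, X, κ, hS⟩ := exists_slabs (ι := ι) hM hr hθ hB0 hΛ n₀ code k η' hη'0
  have hphs : ContDiff ℝ ∞ (ph θ) := ph_contDiff θ
  have h1HH : HH B Λ (fun _ : V => (1 : ℝ)) :=
    ⟨continuous_const, fun _ => by rw [abs_one]; exact hB, fun x y => by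
      simp only [sub_self, abs_zero]; positivity, fun _ _ => rfl⟩
  have hEp := fun i => comp_per (θ := θ) (hS.perE i)
  have hXp := fun i => comp_per (θ := θ) (hS.perX i)
  have hEc : ∀ j, Continuous (fun x => E j (ph θ x)) := fun j =>
    ((hS.smoothE j).comp hphs).continuous
  have hXc : ∀ j, Continuous (fun x => X j (ph θ x)) := fun j =>
    ((hS.smoothX j).comp hphs).continuous
  have hEi : ∀ j, IntegrableOn (fun x => E j (ph θ x)) Dom := fun j =>
    Periodic3.integrableOn (hEp j).1 (hEc j)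
  have hXi : ∀ j, IntegrableOn (fun x => X j (ph θ x)) Dom := fun j =>
    Periodic3.integrableOn (hXp j).1 (hXc j)
  set a : ι → ℝ := fun j => (∫ x in Dom, E j (ph θ x)) / vol with ha
  set m : ι → ℝ := fun j => (∫ x in Dom, X j (ph θ x)) / vol with hm
  have hconst : ∀ c : ℝ, ∫ _x in Dom, c = c * vol := by
    intro c
    simp [hvol, Measure.real, mul_comm]
  have ha1 : ∀ j, |a j - 1| ≤ η' / vol := by
    intro j
    have h1 := (hS.small j _ h1HH).mean hM
    have h2 : ∫ x in Dom, (1 : ℝ) * (E j (ph θ x) - 1) = (∫ x in Dom, E j (ph θ x)) - vol := by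
      simp only [one_mul]
      rw [integral_sub (hEi j) (integrableOn_const dom_lt_top.ne), hconst, one_mul]
    rw [h2] at h1
    have h3 : a j - 1 = ((∫ x in Dom, E j (ph θ x)) - vol) / vol := by
      simp only [ha]
      field_simp
    rw [h3, abs_div, abs_of_pos hvol0]
    gcongr
  have hm1 : ∀ j, |m j - κ| ≤ η' / vol := by
    intro j
    have h1 := (hS.smallX j).mean hM
    have h2 : ∫ x in Dom, (X j (ph θ x) - κ) = (∫ x in Dom, X j (ph θ x)) - κ * vol := by
      rw [integral_sub (hXi j) (integrableOn_const dom_lt_top.ne), hconst]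
    rw [h2] at h1
    have h3 : m j - κ = ((∫ x in Dom, X j (ph θ x)) - κ * vol) / vol := by
      simp only [hm]
      field_simp
    rw [h3, abs_div, abs_of_pos hvol0]
    gcongr
  have hηv : η' / vol ≤ κ₁ / 2 := by
    rw [div_le_iff₀ hvol0]
    linarith
  have hah : ∀ j, 1 / 2 ≤ a j := by
    intro j
    have h1 := (abs_le.1 (ha1 j)).1
    linarith
  have hapos : ∀ j, 0 < a j := fun j => lt_of_lt_of_le (by norm_num) (hah j)
  have hml : ∀ j, κ₁ / 2 ≤ m j := by
    intro j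
    have h1 := (abs_le.1 (hm1 j)).1
    have h2 := hS.lower
    linarith
  have hmpos : ∀ j, 0 < m j := fun j => lt_of_lt_of_le (by positivity) (hml j)
  have hmu : ∀ j, m j ≤ 2 := by
    intro j
    have h1 := (abs_le.1 (hm1 j)).2
    have h2 := hS.upper
    linarith
  refine ⟨fun j s => (a j)⁻¹ * E j s, X, m, fun j => contDiff_const.mul (hS.smoothE j), hS.smoothX,
    fun j s => ?_, fun i j hij s => hS.disj i j (hcode' i j hij) s, fun j => ?_, fun j => ?_, hml,
    hmu, fun j h hh => ?_, fun j => ?_⟩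
  · rw [mul_assoc, hS.absorb]
  · refine ⟨continuous_const.mul (hEc j), fun i x => ?_, fun i x => ?_, ?_⟩
    · exact congrArg ((a j)⁻¹ * ·) ((hEp j).1 i x)
    · have := congrArg ((a j)⁻¹ * ·) ((hEp j).2 i x)
      push_cast
      exact this
    · rw [integral_const_mul]
      have : (∫ x in Dom, E j (ph θ x)) = a j * vol := by simp only [ha]; field_simp
      rw [this, ← mul_assoc, inv_mul_cancel₀ (hapos j).ne', one_mul]
  · refine ⟨continuous_const.mul (hXc j), fun i x => ?_, fun i x => ?_, ?_⟩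
    · exact congrArg ((m j)⁻¹ * ·) ((hXp j).1 i x)
    · have := congrArg ((m j)⁻¹ * ·) ((hXp j).2 i x)
      push_cast
      exact this
    · rw [integral_const_mul]
      have : (∫ x in Dom, X j (ph θ x)) = m j * vol := by simp only [hm]; field_simp
      rw [this, ← mul_assoc, inv_mul_cancel₀ (hmpos j).ne', one_mul]
  · have e : (fun x => h x * ((a j)⁻¹ * E j (ph θ x) - 1))
        = fun x => (a j)⁻¹ * (h x * (E j (ph θ x) - 1)) + ((a j)⁻¹ - 1) * h x := by
      funext x
      have := (hapos j).ne'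
      field_simp
      ring
    rw [e]
    have s1 := (hS.small j h hh).const_mul (a j)⁻¹
    have s2 := (smallM_of_lip (M := M) hr1 hh.cont hh.bdd hΛ hh.lip).const_mul ((a j)⁻¹ - 1)
    obtain ⟨CE, hCE, hhE⟩ := HH.of_smooth (f := fun x => E j (ph θ x))
      (((hS.smoothE j).comp hphs).of_le (by exact_mod_cast le_top)) (hEp j).1
    have b1 : Bdc (fun x => (a j)⁻¹ * (h x * (E j (ph θ x) - 1))) := by
      refine ⟨continuous_const.mul (hh.cont.mul ((hEc j).sub continuous_const)),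
        |(a j)⁻¹| * (B * (CE + 1)), fun x => ?_⟩
      rw [abs_mul, abs_mul]
      have h1 : |E j (ph θ x) - 1| ≤ CE + 1 := by
        refine (abs_sub _ _).trans ?_
        rw [abs_one]
        exact add_le_add (hhE.bdd x) le_rfl
      gcongr
      exact hh.bdd x
    have b2 : Bdc (fun x => ((a j)⁻¹ - 1) * h x) :=
      ⟨continuous_const.mul hh.cont, |(a j)⁻¹ - 1| * B, fun x => by
        rw [abs_mul]; gcongr; exact hh.bdd x⟩
    refine (SmallM.add hr1 b1 b2 s1 s2).mono hr0 ?_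
    have haj := hapos j
    have i1 : (a j)⁻¹ ≤ 2 := by
      rw [inv_le_comm₀ haj (by norm_num)]
      have := hah j
      linarith
    have i2 : |(a j)⁻¹ - 1| ≤ 2 * (η' / vol) := by
      have : (a j)⁻¹ - 1 = (a j)⁻¹ * -(a j - 1) := by field_simp; ring
      rw [this, abs_mul, abs_neg, abs_of_pos (inv_pos.2 haj)]
      have := ha1 j
      gcongr
    rw [abs_of_pos (inv_pos.2 haj)]
    have hC : 0 ≤ (M + vol) * B + 2 * (M * Λ) := by positivity
    calc (a j)⁻¹ * η' + |(a j)⁻¹ - 1| * ((M + vol) * B + 2 * (M * Λ))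
        ≤ 2 * η' + 2 * (η' / vol) * ((M + vol) * B + 2 * (M * Λ)) := by gcongr
      _ ≤ D * η' := by
          rw [hD]
          have h2 : 0 ≤ (1 + (M + vol) / vol) * η' := by positivity
          have h3 : 2 * (η' / vol) * ((M + vol) * B + 2 * (M * Λ))
              = 2 * vol⁻¹ * ((M + vol) * B + 2 * (M * Λ)) * η' := by ring
          rw [h3]
          linarith
      _ ≤ η := hη'2
  · have e : (fun x => X j (ph θ x) - m j)
        = fun x => (X j (ph θ x) - κ) + (κ - m j) := by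
      funext x; ring
    rw [e]
    have s1 := hS.smallX j
    have s2 := smallM_of_lip (M := M) (w := fun _ => κ - m j) hr1 continuous_const
      (B := η' / vol) (Λ := 0) (fun x => by rw [abs_sub_comm]; exact hm1 j) le_rfl
      (fun x y => by simp)
    obtain ⟨CX, hCX, hhX⟩ := HH.of_smooth (f := fun x => X j (ph θ x))
      (((hS.smoothX j).comp hphs).of_le (by exact_mod_cast le_top)) (hXp j).1
    have b1 : Bdc (fun x => X j (ph θ x) - κ) :=
      ⟨(hXc j).sub continuous_const, CX + |κ|, fun x =>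
        (abs_sub _ _).trans (add_le_add (hhX.bdd x) le_rfl)⟩
    have b2 : Bdc (fun _ : V => κ - m j) := ⟨continuous_const, _, fun _ => le_rfl⟩
    refine (SmallM.add hr1 b1 b2 s1 s2).mono hr0 ?_
    have hC : 0 ≤ 2 * vol⁻¹ * ((M + vol) * B + 2 * (M * Λ)) := by positivity
    calc η' + ((M + vol) * (η' / vol) + 2 * (M * 0)) = (1 + (M + vol) / vol) * η' := by ring
      _ ≤ D * η' := by
          rw [hD]
          refine mul_le_mul_of_nonneg_right ?_ hη'0.le
          linarith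
      _ ≤ η := hη'2

end Pool.Agent.K3h70.PP
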