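import Pool.Agent.K3h70.PP.Rep
import Pool.Agent.K3h70.EB.Tail

/-!
# Uniform truncation of Fourier series
-/

set_option autoImplicit false

open MeasureTheory Set Filter Topology
open scoped ENNReal ContDiff

namespace Pool.Agent.K3h70.PP

open Pool.Agent.K3h70.EB Pool.Agent.K3h70.EP
open Pool.Agent.H708R2.EulerSign Pool.Agent.H708R2.EulerModes
open Pool.Agent.Y302.Tri (cf vi vi_pos cf_eq HB N1 N1_nonneg jb jb_pos summable_jb2 N1_mul_le)

/-- **The tails of the Fourier series are uniformly small.** -/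
theorem tail_unif {M r : ℝ} (hM : 0 ≤ M) (hr : 1 ≤ r) (B : ℝ) (K : ℕ) {η : ℝ} (hη : 0 < η) :
    ∃ K', K ≤ K' ∧ ∀ u₀ : V → V, Periodic3 u₀ → Continuous u₀ → HB (Y302.Tri.cv u₀) B →
      ∀ i, SmallM M r η (fun x => u₀ x i - ∑ k ∈ Bx K', rt (fun x => u₀ x i) k x) ∧
      Bdc (fun x => u₀ x i - ∑ k ∈ Bx K', rt (fun x => u₀ x i) k x) := by
  set vol := (volume Dom).toReal with hvol
  have hvol0 : 0 ≤ vol := ENNReal.toReal_nonneg
  set D := (M + vol) * 2 + 2 * (M * 2) with hD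
  have hD0 : 0 ≤ D := by positivity
  set δ : ℝ := η / (D + 1) with hδ
  have hδ0 : 0 < δ := by positivity
  set L : ℝ := 2 * |B| / δ + 1 with hL
  have hL0 : 0 < L := by positivity
  have hBL : |B| / L ≤ δ / 2 := by
    rw [div_le_iff₀ hL0, hL]
    have : δ / 2 * (2 * |B| / δ + 1) = |B| + δ / 2 := by field_simp
    rw [this]
    linarith
  obtain ⟨K', hKK', hK'⟩ := exists_box (c := fun k => 4 * L * (1 / jb k ^ 2))
    (fun k => by have := jb_pos k; positivity) (summable_jb2.mul_left (4 * L)) K (η := δ / 2)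
    (by positivity)
  refine ⟨K', hKK', fun u₀ hp hc hB i => ?_⟩
  set a : (Fin 3 → ℤ) → ℝ := fun k => ‖cf (fun x => u₀ x i) k‖ with ha
  set c : (Fin 3 → ℤ) → ℝ := fun k => a k + N1 k * a k with hcdef
  have ha0 : ∀ k, 0 ≤ a k := fun k => norm_nonneg _
  have hc0 : ∀ k, 0 ≤ c k := fun k => add_nonneg (ha0 k) (mul_nonneg (N1_nonneg k) (ha0 k))
  have hs : Summable c := (hB.s0 i).add (hB.s1 i)
  set d : (Fin 3 → ℤ) → ℝ := fun k => jb k ^ 3 * ∑ j, ‖Y302.Tri.cv u₀ j k‖ ^ 2 with hd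
  have hd0 : ∀ k, 0 ≤ d k := fun k => by have := jb_pos k; positivity
  have hcd : ∀ k, c k ≤ 4 * L * (1 / jb k ^ 2) + d k / L := by
    intro k
    have h1 := N1_mul_le k (a k / L)
    have h2 : c k = L * ((1 + N1 k) * (a k / L)) := by
      simp only [hcdef]
      field_simp
    have h3 : a k ^ 2 ≤ ∑ j, ‖Y302.Tri.cv u₀ j k‖ ^ 2 :=
      Finset.single_le_sum (f := fun j => ‖Y302.Tri.cv u₀ j k‖ ^ 2) (fun _ _ => sq_nonneg _)
        (Finset.mem_univ i)
    have h4 : jb k ^ 3 * (a k) ^ 2 ≤ d k :=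
      mul_le_mul_of_nonneg_left h3 (by have := jb_pos k; positivity)
    rw [h2]
    calc L * ((1 + N1 k) * (a k / L)) ≤ L * (4 * (1 / jb k ^ 2) + jb k ^ 3 * (a k / L) ^ 2) := by
          gcongr
      _ = 4 * L * (1 / jb k ^ 2) + (jb k ^ 3 * (a k) ^ 2) / L := by field_simp
      _ ≤ _ := by gcongr
  have hds : Summable d := hB.summable
  have hdle : ∑' k : {k // k ∉ Bx K'}, d k ≤ B := by
    refine le_trans ?_ hB.tsum_le
    exact hds.tsum_subtype_le d {k | k ∉ Bx K'} hd0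
  set τ := ∑' k : {k // k ∉ Bx K'}, c k with hτ
  have hτ0 : 0 ≤ τ := tsum_nonneg fun k => hc0 k
  have hτδ : τ ≤ δ := by
    have s1 : Summable (fun k : {k // k ∉ Bx K'} => 4 * L * (1 / jb (k : Fin 3 → ℤ) ^ 2)) :=
      (summable_jb2.mul_left (4 * L)).subtype _
    have s2 : Summable (fun k : {k // k ∉ Bx K'} => d k / L) := (hds.div_const L).subtype _
    have h1 : τ ≤ ∑' k : {k // k ∉ Bx K'}, (4 * L * (1 / jb (k : Fin 3 → ℤ) ^ 2) + d k / L) :=
      (hs.subtype _).tsum_le_tsum (fun k => hcd k) (s1.add s2)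
    rw [s1.tsum_add s2, tsum_div_const] at h1
    have h2 : (∑' k : {k // k ∉ Bx K'}, d k) / L ≤ |B| / L := by
      gcongr
      exact hdle.trans (le_abs_self B)
    linarith
  have hpi := comp_periodic hp i
  have hci' : Continuous (fun x => u₀ x i) := (continuous_apply i).comp hc
  have hsum := fun x => rt_hasSum hpi hci' (hB.s0 i) x
  have b1 : ∀ x, |u₀ x i - ∑ k ∈ Bx K', rt (fun x => u₀ x i) k x| ≤ 2 * τ := by
    intro x
    refine (tail_bound (c := fun k => 2 * c k) (hs.mul_left 2) (Bx K') (hsum x) fun k => ?_).trans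
      (le_of_eq ?_)
    · refine (rt_abs_le hpi hci' k x).trans ?_
      have h2 := mul_nonneg (N1_nonneg k) (ha0 k)
      simp only [hcdef]
      linarith
    · rw [tsum_mul_left]
  have b2 : ∀ x y, |(u₀ x i - ∑ k ∈ Bx K', rt (fun x => u₀ x i) k x)
      - (u₀ y i - ∑ k ∈ Bx K', rt (fun x => u₀ x i) k y)| ≤ 2 * τ * ‖x - y‖ := by
    intro x y
    have e : (u₀ x i - ∑ k ∈ Bx K', rt (fun x => u₀ x i) k x)
      - (u₀ y i - ∑ k ∈ Bx K', rt (fun x => u₀ x i) k y)
      = (u₀ x i - u₀ y i) - ∑ k ∈ Bx K', (rt (fun x => u₀ x i) k x - rt (fun x => u₀ x i) k y) := by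
      rw [Finset.sum_sub_distrib]; ring
    rw [e]
    refine (tail_bound (c := fun k => 2 * c k * ‖x - y‖) ((hs.mul_left 2).mul_right _) (Bx K')
      ((hsum x).sub (hsum y)) fun k => ?_).trans (le_of_eq ?_)
    · refine (rt_lip hpi hci' k x y).trans ?_
      have h2 := ha0 k
      simp only [hcdef]
      gcongr
      linarith
    · rw [tsum_mul_right, tsum_mul_left]
  have hcont : Continuous (fun x => u₀ x i - ∑ k ∈ Bx K', rt (fun x => u₀ x i) k x) := by
    refine hci'.sub (continuous_finsetSum _ fun k _ => ?_)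
    unfold rt
    have := (ph_contDiff k).continuous
    fun_prop
  refine ⟨(smallM_of_lip hr hcont b1 (by positivity) b2).mono (by linarith) ?_,
    hcont, _, b1⟩
  calc (M + vol) * (2 * τ) + 2 * (M * (2 * τ)) = D * τ := by rw [hD]; ring
    _ ≤ D * δ := by gcongr
    _ = D / (D + 1) * η := by rw [hδ]; ring
    _ ≤ 1 * η := by
        refine mul_le_mul_of_nonneg_right ?_ hη.le
        rw [div_le_one (by positivity)]
        linarith
    _ = η := one_mul η

end Pool.Agent.K3h70.PP
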